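import Mathlib

set_option autoImplicit false

/-!
# The Zariski topology on a complex projective space, one-parameter families
-/

namespace Pool.Agent.Y215.CC

open MvPolynomial
open scoped LinearAlgebra.Projectivization

/-- The Zariski topology on the projective space of `ι → ℂ`: the closed sets are the common zero
loci of sets of homogeneous polynomials. -/
instance zariski (ι : Type) : TopologicalSpace (ℙ ℂ (ι → ℂ)) :=
  TopologicalSpace.ofClosed
    {Z | ∃ S : Set (MvPolynomial ι ℂ), (∀ F ∈ S, ∃ m, F.IsHomogeneous m) ∧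
      ∀ (v : ι → ℂ) (hv : v ≠ 0), Projectivization.mk ℂ v hv ∈ Z ↔ ∀ F ∈ S, eval v F = 0}
    ⟨{1}, by
      rintro F rfl; exact ⟨0, isHomogeneous_one _ _⟩, fun v hv => by simp⟩
    (by
      intro A hA
      have hA' : ∀ Z, Z ∈ A → ∃ S : Set (MvPolynomial ι ℂ), (∀ F ∈ S, ∃ m, F.IsHomogeneous m) ∧
        ∀ (v : ι → ℂ) (hv : v ≠ 0), Projectivization.mk ℂ v hv ∈ Z ↔ ∀ F ∈ S, eval v F = 0 :=
        fun Z hZ => hA hZ
      choose! S hS using hA'
      refine ⟨⋃ Z ∈ A, S Z, ?_, ?_⟩
      · intro F hF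
        simp only [Set.mem_iUnion] at hF
        obtain ⟨Z, hZ, hF⟩ := hF
        exact (hS Z hZ).1 F hF
      · intro v hv
        simp only [Set.mem_sInter, Set.mem_iUnion]
        constructor
        · rintro h F ⟨Z, hZ, hF⟩
          exact ((hS Z hZ).2 v hv).1 (h Z hZ) F hF
        · intro h Z hZ
          exact ((hS Z hZ).2 v hv).2 fun F hF => h F ⟨Z, hZ, hF⟩)
    (by
      rintro A ⟨S, hS, hA⟩ B ⟨T, hT, hB⟩
      refine ⟨{H | ∃ F ∈ S, ∃ G ∈ T, H = F * G}, ?_, ?_⟩
      · rintro H ⟨F, hF, G, hG, rfl⟩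
        obtain ⟨m, hm⟩ := hS F hF
        obtain ⟨m', hm'⟩ := hT G hG
        exact ⟨m + m', hm.mul hm'⟩
      · intro v hv
        rw [Set.mem_union, hA v hv, hB v hv]
        constructor
        · rintro (h | h) H ⟨F, hF, G, hG, rfl⟩
          · rw [map_mul, h F hF, zero_mul]
          · rw [map_mul, h G hG, mul_zero]
        · intro h
          by_contra hcon
          push Not at hcon
          obtain ⟨⟨F, hF, hF0⟩, G, hG, hG0⟩ := hcon
          have := h _ ⟨F, hF, G, hG, rfl⟩
          rw [map_mul] at this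
          rcases mul_eq_zero.1 this with h0 | h0
          · exact hF0 h0
          · exact hG0 h0)

variable {ι : Type}

theorem isClosed_iff (Z : Set (ℙ ℂ (ι → ℂ))) : IsClosed Z ↔
    ∃ S : Set (MvPolynomial ι ℂ), (∀ F ∈ S, ∃ m, F.IsHomogeneous m) ∧
      ∀ (v : ι → ℂ) (hv : v ≠ 0), Projectivization.mk ℂ v hv ∈ Z ↔ ∀ F ∈ S, eval v F = 0 := by
  rw [← isOpen_compl_iff]
  change Zᶜᶜ ∈ _ ↔ _
  rw [compl_compl]
  rfl

/-- a closed set containing infinitely many points of a polynomial path contains all its points -/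
theorem path_closed {Z : Set (ℙ ℂ (ι → ℂ))} (hZ : IsClosed Z) (c : ι → Polynomial ℂ)
    (T : Set ℂ) (hT : T.Infinite)
    (h : ∀ t ∈ T, ∃ h : (fun i => (c i).eval t) ≠ 0, Projectivization.mk ℂ _ h ∈ Z)
    (t : ℂ) (ht : (fun i => (c i).eval t) ≠ 0) : Projectivization.mk ℂ _ ht ∈ Z := by
  obtain ⟨S, -, hS⟩ := (isClosed_iff Z).1 hZ
  rw [hS]
  intro F hF
  have key : ∀ s, (MvPolynomial.aeval c F).eval s = eval (fun i => (c i).eval s) F := by
    intro s
    clear hF
    induction F using MvPolynomial.induction_on with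
    | C a => simp
    | add p q hp hq => rw [map_add, map_add, Polynomial.eval_add, hp, hq]
    | mul_X p i hp => rw [map_mul, map_mul, Polynomial.eval_mul, hp, aeval_X, eval_X]
  have h0 : MvPolynomial.aeval c F = 0 := by
    apply Polynomial.eq_zero_of_infinite_isRoot
    refine hT.mono fun s hs => ?_
    obtain ⟨h1, h2⟩ := h s hs
    change Polynomial.IsRoot _ s
    rw [Polynomial.IsRoot.def, key]
    exact (hS _ h1).1 h2 F hF
  rw [← key, h0, Polynomial.eval_zero]


/-- the preimage of a closed set under an injective linear map is closed -/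
theorem closed_preimage {Z : Set (ℙ ℂ (ι → ℂ))} (hZ : IsClosed Z) [Fintype ι] [DecidableEq ι]
    (L : (ι → ℂ) →ₗ[ℂ] (ι → ℂ)) (hL : Function.Injective L) :
    IsClosed (Projectivization.map L hL ⁻¹' Z) := by
  obtain ⟨S, hS0, hS⟩ := (isClosed_iff Z).1 hZ
  rw [isClosed_iff]
  have key : ∀ (v : ι → ℂ) (F : MvPolynomial ι ℂ),
      eval v (aeval (fun i => ∑ j, C (L (Pi.single j 1) i) * X j : ι → MvPolynomial ι ℂ) F) =
        eval (L v) F := by
    intro v F
    induction F using MvPolynomial.induction_on with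
    | C a => simp
    | add p q hp hq => rw [map_add, map_add, map_add, hp, hq]
    | mul_X p i hp =>
      rw [map_mul, map_mul, map_mul, hp, aeval_X, eval_X, map_sum]
      congr 1
      conv_rhs => rw [← Finset.univ_sum_single v]
      rw [map_sum, Finset.sum_apply]
      refine Finset.sum_congr rfl fun j _ => ?_
      rw [map_mul, eval_C, eval_X]
      have : (Pi.single j (v j) : ι → ℂ) = v j • Pi.single j 1 := by
        rw [← Pi.single_smul, smul_eq_mul, mul_one]
      rw [this, map_smul, Pi.smul_apply, smul_eq_mul, mul_comm]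
  refine ⟨(fun F => aeval (fun i => ∑ j, C (L (Pi.single j 1) i) * X j : ι → MvPolynomial ι ℂ) F)
    '' S, ?_, ?_⟩
  · rintro _ ⟨F, hF, rfl⟩
    obtain ⟨m, hm⟩ := hS0 F hF
    refine ⟨1 * m, hm.aeval _ fun i => ?_⟩
    refine IsHomogeneous.sum _ _ _ fun j _ => ?_
    exact isHomogeneous_C_mul_X _ _
  · intro v hv
    rw [Set.mem_preimage, Projectivization.map_mk, hS]
    constructor
    · rintro h _ ⟨F, hF, rfl⟩
      rw [key]; exact h F hF
    · intro h F hF
      rw [← key]; exact h _ ⟨F, hF, rfl⟩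

/-- an irreducible component of `M` is stable under one-parameter families of linear maps through
the identity which preserve `M` -/
theorem comp_inv [Fintype ι] [DecidableEq ι] {M X : Set (ℙ ℂ (ι → ℂ))}
    (hX : Maximal (fun Z => IsIrreducible Z ∧ Z ⊆ M) X)
    (L : ℂ → (ι → ℂ) →ₗ[ℂ] (ι → ℂ)) (c : (ι → ℂ) → ι → Polynomial ℂ)
    (hc : ∀ v i t, (c v i).eval t = L t v i) (G : Set ℂ) (hG : Gᶜ.Finite)
    (hL : ∀ t ∈ G, Function.Injective (L t))
    (hM : ∀ t (ht : t ∈ G), ∀ x ∈ M, Projectivization.map (L t) (hL t ht) x ∈ M)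
    (h0 : 0 ∈ G) (hid : L 0 = LinearMap.id) (t : ℂ) (ht : t ∈ G) (x : ℙ ℂ (ι → ℂ)) (hx : x ∈ X) :
    Projectivization.map (L t) (hL t ht) x ∈ X := by
  set U : Set (ℙ ℂ (ι → ℂ)) :=
    {y | ∃ (s : ℂ) (hs : s ∈ G), ∃ x ∈ X, y = Projectivization.map (L s) (hL s hs) x} with hU
  have hGi : G.Infinite := by
    intro hfin
    exact Set.infinite_univ (α := ℂ) (by
      have := hG.union hfin
      rwa [Set.compl_union_self] at this)
  have hXU : X ⊆ U := by
    intro y hy
    refine ⟨0, h0, y, hy, ?_⟩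
    induction y using Projectivization.ind with
    | h v hv =>
      rw [Projectivization.map_mk]
      simp only [hid, LinearMap.id_apply]
  have hUirr : IsIrreducible U := by
    refine ⟨hX.prop.1.1.mono hXU, ?_⟩
    rw [isPreirreducible_iff_isClosed_union_isClosed]
    intro A B hA hB hAB
    have h1 : ∀ s (hs : s ∈ G), (X ⊆ Projectivization.map (L s) (hL s hs) ⁻¹' A) ∨
        (X ⊆ Projectivization.map (L s) (hL s hs) ⁻¹' B) := by
      intro s hs
      have := hX.prop.1.2
      rw [isPreirreducible_iff_isClosed_union_isClosed] at this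
      refine this _ _ (closed_preimage hA _ _) (closed_preimage hB _ _) ?_
      intro y hy
      exact hAB ⟨s, hs, y, hy, rfl⟩
    have h2 : ∀ A' : Set (ℙ ℂ (ι → ℂ)), IsClosed A' →
        {s | ∃ hs : s ∈ G, X ⊆ Projectivization.map (L s) (hL s hs) ⁻¹' A'}.Infinite →
        U ⊆ A' := by
      intro A' hA' hinf y hy
      obtain ⟨s, hs, y, hyX, rfl⟩ := hy
      induction y using Projectivization.ind with
      | h v hv =>
        rw [Projectivization.map_mk]
        have hcs : (fun i => (c v i).eval s) = L s v := funext fun i => hc v i s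
        have hne : (fun i => (c v i).eval s) ≠ 0 := by
          rw [hcs]
          exact (map_ne_zero_iff _ (hL s hs)).2 hv
        have := path_closed hA' (c v) _ hinf (fun r hr => by
          obtain ⟨hr, hr2⟩ := hr
          have hcr : (fun i => (c v i).eval r) = L r v := funext fun i => hc v i r
          have hne : (fun i => (c v i).eval r) ≠ 0 := by
            rw [hcr]
            exact (map_ne_zero_iff _ (hL r hr)).2 hv
          refine ⟨hne, ?_⟩
          have := hr2 hyX
          rw [Set.mem_preimage, Projectivization.map_mk] at this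
          convert this using 2) s hne
        convert this using 2
        exact hcs.symm
    have h3 : {s | ∃ hs : s ∈ G, X ⊆ Projectivization.map (L s) (hL s hs) ⁻¹' A}.Infinite ∨
        {s | ∃ hs : s ∈ G, X ⊆ Projectivization.map (L s) (hL s hs) ⁻¹' B}.Infinite := by
      by_contra hcon
      rw [not_or, Set.not_infinite, Set.not_infinite] at hcon
      refine hGi ((hcon.1.union hcon.2).subset fun s hs => ?_)
      rcases h1 s hs with h | h
      · exact Or.inl ⟨hs, h⟩
      · exact Or.inr ⟨hs, h⟩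
    exact h3.imp (h2 A hA) (h2 B hB)
  have hUM : U ⊆ M := by
    rintro y ⟨s, hs, y, hy, rfl⟩
    exact hM s hs y (hX.prop.2 hy)
  exact hX.le_of_ge ⟨hUirr, hUM⟩ hXU ⟨t, ht, x, hx, rfl⟩

end Pool.Agent.Y215.CC
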