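import Mathlib
import Pool.Agent.Y215.CC.Zar

set_option autoImplicit false

/-!
# Polynomial 1-forms `P dy - Q dx`, affine changes of coordinates
-/

namespace Pool.Agent.Y215.CC

open MvPolynomial

/-- the pairs of exponents `(i, j)` with `i + j ≤ d` -/
abbrev Ex (d : ℕ) : Type := {e : Fin (d + 1) × Fin (d + 1) // (e.1 : ℕ) + (e.2 : ℕ) ≤ d}

/-- the coefficient vectors of the 1-forms `P dy - Q dx` with `deg P, deg Q ≤ d` -/
abbrev Frm (d : ℕ) : Type := Fin 2 × Ex d → ℂ

/-- the polynomial with the given coefficients -/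
noncomputable def poly {d : ℕ} (c : Ex d → ℂ) : MvPolynomial (Fin 2) ℂ :=
  ∑ e : Ex d, C (c e) * X 0 ^ (e.1.1 : ℕ) * X 1 ^ (e.1.2 : ℕ)

/-- the polynomial `P` of the form `P dy - Q dx` -/
noncomputable def fP {d : ℕ} (w : Frm d) : MvPolynomial (Fin 2) ℂ := poly fun e => w (0, e)

/-- the polynomial `Q` of the form `P dy - Q dx` -/
noncomputable def fQ {d : ℕ} (w : Frm d) : MvPolynomial (Fin 2) ℂ := poly fun e => w (1, e)

/-- the monomial with exponent pair `e` -/
noncomputable def mon {d : ℕ} (e : Ex d) : Fin 2 →₀ ℕ :=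
  Finsupp.single 0 (e.1.1 : ℕ) + Finsupp.single 1 (e.1.2 : ℕ)

theorem mon_zero {d : ℕ} (e : Ex d) : mon e 0 = e.1.1 := by simp [mon]
theorem mon_one {d : ℕ} (e : Ex d) : mon e 1 = e.1.2 := by simp [mon]

theorem term_eq {d : ℕ} (c : ℂ) (e : Ex d) :
    C c * X 0 ^ (e.1.1 : ℕ) * X 1 ^ (e.1.2 : ℕ) = (monomial (mon e) c : MvPolynomial (Fin 2) ℂ) := by
  rw [X_pow_eq_monomial, X_pow_eq_monomial, C_apply, monomial_mul, monomial_mul, mon]
  simp

theorem mon_inj {d : ℕ} {e e' : Ex d} (h : mon e = mon e') : e = e' := by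
  apply Subtype.ext
  apply Prod.ext
  · apply Fin.ext
    rw [← mon_zero, ← mon_zero, h]
  · apply Fin.ext
    rw [← mon_one, ← mon_one, h]

theorem coeff_poly {d : ℕ} (c : Ex d → ℂ) (e : Ex d) : coeff (mon e) (poly c) = c e := by
  classical
  rw [poly, coeff_sum, Finset.sum_eq_single e]
  · rw [term_eq, coeff_monomial, if_pos rfl]
  · intro b _ hb
    rw [term_eq, coeff_monomial, if_neg fun h => hb (mon_inj h)]
  · intro h; exact absurd (Finset.mem_univ _) h

theorem coeff_poly_zero {d : ℕ} (c : Ex d → ℂ) (m : Fin 2 →₀ ℕ) (h : d < m 0 + m 1) :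
    coeff m (poly c) = 0 := by
  classical
  rw [poly, coeff_sum]
  refine Finset.sum_eq_zero fun e _ => ?_
  rw [term_eq, coeff_monomial, if_neg]
  intro he
  rw [← he, mon_zero, mon_one] at h
  have := e.2
  omega

theorem eq_mon {d : ℕ} (m : Fin 2 →₀ ℕ) (h : m 0 + m 1 ≤ d) : ∃ e : Ex d, mon e = m := by
  refine ⟨⟨(⟨m 0, by omega⟩, ⟨m 1, by omega⟩), h⟩, ?_⟩
  ext i
  fin_cases i
  · exact mon_zero _
  · exact mon_one _

theorem deg_mon (m : Fin 2 →₀ ℕ) : (m.sum fun _ e => e) = m 0 + m 1 := by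
  rw [Finsupp.sum_fintype _ _ (fun _ => rfl), Fin.sum_univ_two]

theorem poly_coeff {d : ℕ} (P : MvPolynomial (Fin 2) ℂ) (hP : P.totalDegree ≤ d) :
    poly (fun e : Ex d => coeff (mon e) P) = P := by
  ext m
  by_cases h : m 0 + m 1 ≤ d
  · obtain ⟨e, rfl⟩ := eq_mon m h
    rw [coeff_poly]
  · rw [coeff_poly_zero _ _ (not_le.1 h)]
    symm
    apply coeff_eq_zero_of_totalDegree_lt
    have := deg_mon m
    rw [Finsupp.sum] at this
    omega

theorem deg_poly {d : ℕ} (c : Ex d → ℂ) : (poly c).totalDegree ≤ d := by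
  rw [totalDegree]
  refine Finset.sup_le fun m hm => ?_
  rw [deg_mon]
  by_contra h
  exact (mem_support_iff.1 hm) (coeff_poly_zero c m (not_le.1 h))

/-- coefficient vector of a pair of polynomials -/
noncomputable def enc (d : ℕ) {R : Type} [CommSemiring R] (P Q : MvPolynomial (Fin 2) R) :
    Fin 2 × Ex d → R := fun ie => coeff (mon ie.2) (if ie.1 = 0 then P else Q)

theorem fP_enc {d : ℕ} (P Q : MvPolynomial (Fin 2) ℂ) (hP : P.totalDegree ≤ d) :
    fP (enc d P Q) = P := poly_coeff P hP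

theorem fQ_enc {d : ℕ} (P Q : MvPolynomial (Fin 2) ℂ) (hQ : Q.totalDegree ≤ d) :
    fQ (enc d P Q) = Q := poly_coeff Q hQ

theorem enc_fPQ {d : ℕ} (w : Frm d) : enc d (fP w) (fQ w) = w := by
  ext ⟨i, e⟩
  fin_cases i
  · exact coeff_poly _ _
  · exact coeff_poly _ _

theorem frm_ext {d : ℕ} {w w' : Frm d} (h : fP w = fP w') (h' : fQ w = fQ w') : w = w' := by
  rw [← enc_fPQ w, ← enc_fPQ w', h, h']

section ring

variable {R : Type} [CommRing R]

/-- affine substitution -/
noncomputable def aff (p : Fin 2 → R) (m : Fin 2 → Fin 2 → R) : Fin 2 → MvPolynomial (Fin 2) R :=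
  fun i => C (p i) + C (m i 0) * X 0 + C (m i 1) * X 1

/-- `P ∘ aff` -/
noncomputable def sb (p : Fin 2 → R) (m : Fin 2 → Fin 2 → R) (P : MvPolynomial (Fin 2) R) :
    MvPolynomial (Fin 2) R := bind₁ (aff p m) P

/-- first component of the pullback of `P dy - Q dx` -/
noncomputable def pb1 (p : Fin 2 → R) (m : Fin 2 → Fin 2 → R) (P Q : MvPolynomial (Fin 2) R) :
    MvPolynomial (Fin 2) R := C (m 1 1) * sb p m P - C (m 0 1) * sb p m Q

/-- second component of the pullback of `P dy - Q dx` -/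
noncomputable def pb2 (p : Fin 2 → R) (m : Fin 2 → Fin 2 → R) (P Q : MvPolynomial (Fin 2) R) :
    MvPolynomial (Fin 2) R := C (m 0 0) * sb p m Q - C (m 1 0) * sb p m P

theorem deg_aff (p : Fin 2 → R) (m : Fin 2 → Fin 2 → R) (i : Fin 2) :
    (aff p m i).totalDegree ≤ 1 := by
  have hX : ∀ (a : R) (j : Fin 2), (C a * X j : MvPolynomial (Fin 2) R).totalDegree ≤ 1 := by
    intro a j
    exact (isHomogeneous_C_mul_X a j).totalDegree_le
  refine (totalDegree_add _ _).trans (max_le ((totalDegree_add _ _).trans (max_le ?_ (hX _ _)))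
    (hX _ _))
  rw [totalDegree_C]; exact Nat.zero_le _

theorem deg_sb (p : Fin 2 → R) (m : Fin 2 → Fin 2 → R) (P : MvPolynomial (Fin 2) R) :
    (sb p m P).totalDegree ≤ P.totalDegree := by
  classical
  rw [sb, bind₁, aeval_def, eval₂_eq]
  refine (totalDegree_finsetSum _ _).trans (Finset.sup_le fun s hs => ?_)
  refine (totalDegree_mul _ _).trans ?_
  have h1 : (algebraMap R (MvPolynomial (Fin 2) R) (coeff s P)).totalDegree = 0 := totalDegree_C _
  rw [h1, zero_add]
  refine (totalDegree_finsetProd _ _).trans ?_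
  refine le_trans ?_ (le_totalDegree hs)
  rw [Finsupp.sum]
  refine Finset.sum_le_sum fun i _ => ?_
  refine (totalDegree_pow _ _).trans ?_
  calc s i * (aff p m i).totalDegree ≤ s i * 1 := Nat.mul_le_mul_left _ (deg_aff p m i)
    _ = s i := mul_one _

theorem deg_comb (a b : R) (P Q : MvPolynomial (Fin 2) R) (e : ℕ) (hP : P.totalDegree ≤ e)
    (hQ : Q.totalDegree ≤ e) : (C a * P - C b * Q).totalDegree ≤ e := by
  refine (totalDegree_sub _ _).trans (max_le ?_ ?_)
  · refine (totalDegree_mul _ _).trans ?_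
    rw [totalDegree_C, zero_add]; exact hP
  · refine (totalDegree_mul _ _).trans ?_
    rw [totalDegree_C, zero_add]; exact hQ

theorem deg_pb1 (p : Fin 2 → R) (m : Fin 2 → Fin 2 → R) (P Q : MvPolynomial (Fin 2) R) (e : ℕ)
    (hP : P.totalDegree ≤ e) (hQ : Q.totalDegree ≤ e) : (pb1 p m P Q).totalDegree ≤ e :=
  deg_comb _ _ _ _ e ((deg_sb _ _ _).trans hP) ((deg_sb _ _ _).trans hQ)

theorem deg_pb2 (p : Fin 2 → R) (m : Fin 2 → Fin 2 → R) (P Q : MvPolynomial (Fin 2) R) (e : ℕ)
    (hP : P.totalDegree ≤ e) (hQ : Q.totalDegree ≤ e) : (pb2 p m P Q).totalDegree ≤ e :=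
  deg_comb _ _ _ _ e ((deg_sb _ _ _).trans hQ) ((deg_sb _ _ _).trans hP)

theorem map_aff {S : Type} [CommRing S] (f : R →+* S) (p : Fin 2 → R) (m : Fin 2 → Fin 2 → R)
    (i : Fin 2) : map f (aff p m i) = aff (fun i => f (p i)) (fun i j => f (m i j)) i := by
  simp [aff]

theorem map_sb {S : Type} [CommRing S] (f : R →+* S) (p : Fin 2 → R) (m : Fin 2 → Fin 2 → R)
    (P : MvPolynomial (Fin 2) R) :
    map f (sb p m P) = sb (fun i => f (p i)) (fun i j => f (m i j)) (map f P) := by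
  rw [sb, map_bind₁, sb]
  congr 2
  funext i
  exact map_aff f p m i

theorem map_pb1 {S : Type} [CommRing S] (f : R →+* S) (p : Fin 2 → R) (m : Fin 2 → Fin 2 → R)
    (P Q : MvPolynomial (Fin 2) R) :
    map f (pb1 p m P Q) = pb1 (fun i => f (p i)) (fun i j => f (m i j)) (map f P) (map f Q) := by
  rw [pb1, map_sub, map_mul, map_mul, map_C, map_C, map_sb, map_sb, pb1]

theorem map_pb2 {S : Type} [CommRing S] (f : R →+* S) (p : Fin 2 → R) (m : Fin 2 → Fin 2 → R)
    (P Q : MvPolynomial (Fin 2) R) :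
    map f (pb2 p m P Q) = pb2 (fun i => f (p i)) (fun i j => f (m i j)) (map f P) (map f Q) := by
  rw [pb2, map_sub, map_mul, map_mul, map_C, map_C, map_sb, map_sb, pb2]

theorem sb_id (P : MvPolynomial (Fin 2) R) :
    sb (fun _ => (0 : R)) (fun i j => if i = j then 1 else 0) P = P := by
  have : aff (fun _ => (0 : R)) (fun i j => if i = j then 1 else 0) = X := by
    funext i
    fin_cases i <;> simp [aff]
  rw [sb, this, bind₁_X_left]
  rfl

theorem pderiv_sb (p : Fin 2 → R) (m : Fin 2 → Fin 2 → R) (P : MvPolynomial (Fin 2) R)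
    (i : Fin 2) : pderiv i (sb p m P) =
      C (m 0 i) * sb p m (pderiv 0 P) + C (m 1 i) * sb p m (pderiv 1 P) := by
  have haff : ∀ j : Fin 2, pderiv i (aff p m j) = C (m j i) := by
    intro j
    fin_cases i <;> simp [aff, pderiv_X, Derivation.leibniz]
  induction P using MvPolynomial.induction_on with
  | C a => simp [sb]
  | add p q hp hq =>
    simp only [sb, map_add] at hp hq ⊢
    rw [hp, hq]; ring
  | mul_X q j hq =>
    have h1 : sb p m (q * X j) = sb p m q * aff p m j := by simp [sb]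
    rw [h1, Derivation.leibniz, hq, haff]
    have h2 : ∀ k, sb p m (pderiv k (q * X j)) =
        sb p m q * C (if j = k then 1 else 0) + aff p m j * sb p m (pderiv k q) := by
      intro k
      rw [Derivation.leibniz, pderiv_X, smul_eq_mul, smul_eq_mul]
      have : ((Pi.single k (1 : MvPolynomial (Fin 2) R) : Fin 2 → MvPolynomial (Fin 2) R) j)
          = C (if j = k then 1 else 0) := by
        by_cases hk : j = k
        · subst hk; simp
        · simp [hk]
      rw [this]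
      by_cases hk : j = k <;> simp [sb, hk]
    rw [h2 0, h2 1, smul_eq_mul, smul_eq_mul]
    fin_cases j <;> simp <;> ring

end ring

theorem eval_sb (p : Fin 2 → ℂ) (m : Fin 2 → Fin 2 → ℂ) (P : MvPolynomial (Fin 2) ℂ)
    (z : Fin 2 → ℂ) : eval z (sb p m P) = eval (fun i => p i + m i 0 * z 0 + m i 1 * z 1) P := by
  have h1 := MvPolynomial.eval₂Hom_bind₁ (RingHom.id ℂ) z (aff p m) P
  have h2 : (eval z : MvPolynomial (Fin 2) ℂ →+* ℂ) = eval₂Hom (RingHom.id ℂ) z := rfl
  rw [sb, h2, h1]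
  have : (fun i => (eval₂Hom (RingHom.id ℂ) z) (aff p m i)) =
      fun i => p i + m i 0 * z 0 + m i 1 * z 1 := by
    funext i
    simp [aff]
  rw [this]
  rfl

end Pool.Agent.Y215.CC
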