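import Mathlib
import Pool.Agent.Y215.CC.Zar
import Pool.Agent.Y215.CC.Frm

set_option autoImplicit false

/-!
# Foliations with a center, invariance under affine changes of coordinates
-/

namespace Pool.Agent.Y215.CC

open MvPolynomial
open scoped LinearAlgebra.Projectivization

/-- `ω = P dy - Q dx` has a center at `p`: `p` is a reduced singularity and there are local
holomorphic coordinates `(u, v)` centred at `p` with `ω ∧ d(u ^ 2 + v ^ 2) = 0` near `p`. -/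
def HasCenterAt (P Q : MvPolynomial (Fin 2) ℂ) (p : Fin 2 → ℂ) : Prop :=
  eval p P = 0 ∧ eval p Q = 0 ∧
  eval p (pderiv 0 P * pderiv 1 Q - pderiv 1 P * pderiv 0 Q) ≠ 0 ∧
  ∃ u v : (Fin 2 → ℂ) → ℂ, AnalyticAt ℂ u p ∧ AnalyticAt ℂ v p ∧ u p = 0 ∧ v p = 0 ∧
    LinearIndependent ℂ ![fderiv ℂ u p, fderiv ℂ v p] ∧
    ∀ᶠ z in nhds p, eval z P * fderiv ℂ (fun s => u s ^ 2 + v s ^ 2) z (Pi.single 0 1) +
      eval z Q * fderiv ℂ (fun s => u s ^ 2 + v s ^ 2) z (Pi.single 1 1) = 0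

/-- the classes of the forms `P dy - Q dx` with `P`, `Q` coprime of maximal degree `d` which have a
center -/
def centers (d : ℕ) : Set (ℙ ℂ (Frm d)) :=
  {x | ∃ (w : Frm d) (hw : w ≠ 0), x = Projectivization.mk ℂ w hw ∧ IsRelPrime (fP w) (fQ w) ∧
    max (fP w).totalDegree (fQ w).totalDegree = d ∧ ∃ p, HasCenterAt (fP w) (fQ w) p}

/-- `A = (p, m)` and `A' = (p', m')` are affine maps with `A ∘ A' = id` -/
structure Inv (p p' : Fin 2 → ℂ) (m m' : Fin 2 → Fin 2 → ℂ) : Prop where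
  h00 : m 0 0 * m' 0 0 + m 0 1 * m' 1 0 = 1
  h01 : m 0 0 * m' 0 1 + m 0 1 * m' 1 1 = 0
  h10 : m 1 0 * m' 0 0 + m 1 1 * m' 1 0 = 0
  h11 : m 1 0 * m' 0 1 + m 1 1 * m' 1 1 = 1
  p0 : p 0 + m 0 0 * p' 0 + m 0 1 * p' 1 = 0
  p1 : p 1 + m 1 0 * p' 0 + m 1 1 * p' 1 = 0

theorem sb_sb {p p' : Fin 2 → ℂ} {m m' : Fin 2 → Fin 2 → ℂ} (h : Inv p p' m m')
    (P : MvPolynomial (Fin 2) ℂ) : sb p' m' (sb p m P) = P := by
  have h0 : bind₁ (aff p' m') (aff p m 0) = (X 0 : MvPolynomial (Fin 2) ℂ) := by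
    have : bind₁ (aff p' m') (aff p m 0) = C (p 0 + m 0 0 * p' 0 + m 0 1 * p' 1) +
        C (m 0 0 * m' 0 0 + m 0 1 * m' 1 0) * X 0 +
        C (m 0 0 * m' 0 1 + m 0 1 * m' 1 1) * X 1 := by
      simp only [aff, map_add, map_mul, bind₁_C_right, bind₁_X_right]
      ring
    rw [this, h.h00, h.h01, h.p0]; simp
  have h1 : bind₁ (aff p' m') (aff p m 1) = (X 1 : MvPolynomial (Fin 2) ℂ) := by
    have : bind₁ (aff p' m') (aff p m 1) = C (p 1 + m 1 0 * p' 0 + m 1 1 * p' 1) +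
        C (m 1 0 * m' 0 0 + m 1 1 * m' 1 0) * X 0 +
        C (m 1 0 * m' 0 1 + m 1 1 * m' 1 1) * X 1 := by
      simp only [aff, map_add, map_mul, bind₁_C_right, bind₁_X_right]
      ring
    rw [this, h.h10, h.h11, h.p1]; simp
  rw [sb, sb, bind₁_bind₁]
  have : (fun i => bind₁ (aff p' m') (aff p m i)) = (X : Fin 2 → MvPolynomial (Fin 2) ℂ) := by
    funext i
    fin_cases i
    · exact h0
    · exact h1
  rw [this, bind₁_X_left]
  rfl

theorem pb1_pb {p p' : Fin 2 → ℂ} {m m' : Fin 2 → Fin 2 → ℂ} (h : Inv p p' m m')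
    (P Q : MvPolynomial (Fin 2) ℂ) : pb1 p' m' (pb1 p m P Q) (pb2 p m P Q) = P := by
  have e1 : sb p' m' (pb1 p m P Q) = C (m 1 1) * P - C (m 0 1) * Q := by
    have : sb p' m' (pb1 p m P Q) = C (m 1 1) * sb p' m' (sb p m P) -
        C (m 0 1) * sb p' m' (sb p m Q) := by
      simp only [pb1, sb, map_sub, map_mul, bind₁_C_right]
    rw [this, sb_sb h, sb_sb h]
  have e2 : sb p' m' (pb2 p m P Q) = C (m 0 0) * Q - C (m 1 0) * P := by
    have : sb p' m' (pb2 p m P Q) = C (m 0 0) * sb p' m' (sb p m Q) -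
        C (m 1 0) * sb p' m' (sb p m P) := by
      simp only [pb2, sb, map_sub, map_mul, bind₁_C_right]
    rw [this, sb_sb h, sb_sb h]
  have : pb1 p' m' (pb1 p m P Q) (pb2 p m P Q) =
      C (m 1 0 * m' 0 1 + m 1 1 * m' 1 1) * P - C (m 0 0 * m' 0 1 + m 0 1 * m' 1 1) * Q := by
    rw [pb1, e1, e2]
    simp only [map_add, map_mul]
    ring
  rw [this, h.h11, h.h01]; simp

theorem pb2_pb {p p' : Fin 2 → ℂ} {m m' : Fin 2 → Fin 2 → ℂ} (h : Inv p p' m m')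
    (P Q : MvPolynomial (Fin 2) ℂ) : pb2 p' m' (pb1 p m P Q) (pb2 p m P Q) = Q := by
  have e1 : sb p' m' (pb1 p m P Q) = C (m 1 1) * P - C (m 0 1) * Q := by
    have : sb p' m' (pb1 p m P Q) = C (m 1 1) * sb p' m' (sb p m P) -
        C (m 0 1) * sb p' m' (sb p m Q) := by
      simp only [pb1, sb, map_sub, map_mul, bind₁_C_right]
    rw [this, sb_sb h, sb_sb h]
  have e2 : sb p' m' (pb2 p m P Q) = C (m 0 0) * Q - C (m 1 0) * P := by
    have : sb p' m' (pb2 p m P Q) = C (m 0 0) * sb p' m' (sb p m Q) -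
        C (m 1 0) * sb p' m' (sb p m P) := by
      simp only [pb2, sb, map_sub, map_mul, bind₁_C_right]
    rw [this, sb_sb h, sb_sb h]
  have : pb2 p' m' (pb1 p m P Q) (pb2 p m P Q) =
      C (m 0 0 * m' 0 0 + m 0 1 * m' 1 0) * Q - C (m 1 0 * m' 0 0 + m 1 1 * m' 1 0) * P := by
    rw [pb2, e1, e2]
    simp only [map_add, map_mul]
    ring
  rw [this, h.h00, h.h10]; simp

/-- existence of the inverse affine map -/
theorem exists_inv (p : Fin 2 → ℂ) (m : Fin 2 → Fin 2 → ℂ)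
    (hδ : m 0 0 * m 1 1 - m 0 1 * m 1 0 ≠ 0) :
    ∃ (p' : Fin 2 → ℂ) (m' : Fin 2 → Fin 2 → ℂ), Inv p p' m m' ∧ Inv p' p m' m := by
  set δ := m 0 0 * m 1 1 - m 0 1 * m 1 0 with hδ'
  refine ⟨![-(m 1 1 / δ * p 0 + -m 0 1 / δ * p 1), -(-m 1 0 / δ * p 0 + m 0 0 / δ * p 1)],
    ![![m 1 1 / δ, -m 0 1 / δ], ![-m 1 0 / δ, m 0 0 / δ]], ?_, ?_⟩
  · constructor <;> simp <;> field_simp <;> rw [hδ'] <;> ring
  · constructor <;> simp <;> field_simp <;> (try rw [hδ']) <;> ring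

/-- the pullback as a linear map -/
noncomputable def pbL (d : ℕ) (p : Fin 2 → ℂ) (m : Fin 2 → Fin 2 → ℂ) : Frm d →ₗ[ℂ] Frm d where
  toFun w := enc d (pb1 p m (fP w) (fQ w)) (pb2 p m (fP w) (fQ w))
  map_add' := by
    intro w w'
    have h1 : fP (w + w') = fP w + fP w' := by
      simp [fP, poly, add_mul, Finset.sum_add_distrib]
    have h2 : fQ (w + w') = fQ w + fQ w' := by
      simp [fQ, poly, add_mul, Finset.sum_add_distrib]
    ext ⟨i, e⟩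
    fin_cases i <;> simp [enc, h1, h2, pb1, pb2, sb] <;> ring
  map_smul' := by
    intro a w
    have h1 : fP (a • w) = C a * fP w := by
      simp [fP, poly, Finset.mul_sum, mul_assoc]
    have h2 : fQ (a • w) = C a * fQ w := by
      simp [fQ, poly, Finset.mul_sum, mul_assoc]
    ext ⟨i, e⟩
    fin_cases i
    · have : pb1 p m (C a * fP w) (C a * fQ w) = C a * pb1 p m (fP w) (fQ w) := by
        simp [pb1, sb]; ring
      simp [enc, h1, h2, this]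
    · have : pb2 p m (C a * fP w) (C a * fQ w) = C a * pb2 p m (fP w) (fQ w) := by
        simp [pb2, sb]; ring
      simp [enc, h1, h2, this]

theorem fP_pbL {d : ℕ} (p : Fin 2 → ℂ) (m : Fin 2 → Fin 2 → ℂ) (w : Frm d) :
    fP (pbL d p m w) = pb1 p m (fP w) (fQ w) :=
  fP_enc _ _ (deg_pb1 _ _ _ _ _ (deg_poly _) (deg_poly _))

theorem fQ_pbL {d : ℕ} (p : Fin 2 → ℂ) (m : Fin 2 → Fin 2 → ℂ) (w : Frm d) :
    fQ (pbL d p m w) = pb2 p m (fP w) (fQ w) :=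
  fQ_enc _ _ (deg_pb2 _ _ _ _ _ (deg_poly _) (deg_poly _))

theorem pbL_inj {d : ℕ} (p : Fin 2 → ℂ) (m : Fin 2 → Fin 2 → ℂ)
    (hδ : m 0 0 * m 1 1 - m 0 1 * m 1 0 ≠ 0) : Function.Injective (pbL d p m) := by
  obtain ⟨p', m', h, -⟩ := exists_inv p m hδ
  intro w w' hw
  have hP := congrArg fP hw
  have hQ := congrArg fQ hw
  rw [fP_pbL, fP_pbL] at hP
  rw [fQ_pbL, fQ_pbL] at hQ
  apply frm_ext
  · rw [← pb1_pb h (fP w) (fQ w), hP, hQ, pb1_pb h]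
  · rw [← pb2_pb h (fP w) (fQ w), hP, hQ, pb2_pb h]

theorem rel_pb {P Q : MvPolynomial (Fin 2) ℂ} (p : Fin 2 → ℂ) (m : Fin 2 → Fin 2 → ℂ)
    (hδ : m 0 0 * m 1 1 - m 0 1 * m 1 0 ≠ 0) (hPQ : IsRelPrime P Q) :
    IsRelPrime (pb1 p m P Q) (pb2 p m P Q) := by
  obtain ⟨p', m', h, h'⟩ := exists_inv p m hδ
  intro D hD1 hD2
  have hdvd : ∀ {A B : MvPolynomial (Fin 2) ℂ}, A ∣ B → sb p' m' A ∣ sb p' m' B := by
    rintro A _ ⟨c, rfl⟩
    exact ⟨sb p' m' c, by simp [sb]⟩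
  have e1 : sb p' m' D ∣ P := by
    have h1 := hdvd hD1
    have h2 := hdvd hD2
    have h3 : sb p' m' D ∣ pb1 p' m' (pb1 p m P Q) (pb2 p m P Q) := by
      rw [pb1]
      exact dvd_sub (Dvd.dvd.mul_left h1 _) (Dvd.dvd.mul_left h2 _)
    rwa [pb1_pb h] at h3
  have e2 : sb p' m' D ∣ Q := by
    have h1 := hdvd hD1
    have h2 := hdvd hD2
    have h3 : sb p' m' D ∣ pb2 p' m' (pb1 p m P Q) (pb2 p m P Q) := by
      rw [pb2]
      exact dvd_sub (Dvd.dvd.mul_left h2 _) (Dvd.dvd.mul_left h1 _)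
    rwa [pb2_pb h] at h3
  have hu := hPQ e1 e2
  have : IsUnit (sb p m (sb p' m' D)) := hu.map (bind₁ (aff p m))
  rwa [sb_sb h'] at this

theorem deg_eq_pb {P Q : MvPolynomial (Fin 2) ℂ} (p : Fin 2 → ℂ) (m : Fin 2 → Fin 2 → ℂ)
    (hδ : m 0 0 * m 1 1 - m 0 1 * m 1 0 ≠ 0) :
    max (pb1 p m P Q).totalDegree (pb2 p m P Q).totalDegree =
      max P.totalDegree Q.totalDegree := by
  obtain ⟨p', m', h, -⟩ := exists_inv p m hδ
  apply le_antisymm
  · exact max_le (deg_pb1 _ _ _ _ _ (le_max_left _ _) (le_max_right _ _))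
      (deg_pb2 _ _ _ _ _ (le_max_left _ _) (le_max_right _ _))
  · refine max_le ?_ ?_
    · conv_lhs => rw [← pb1_pb h P Q]
      exact deg_pb1 _ _ _ _ _ (le_max_left _ _) (le_max_right _ _)
    · conv_lhs => rw [← pb2_pb h P Q]
      exact deg_pb2 _ _ _ _ _ (le_max_left _ _) (le_max_right _ _)

end Pool.Agent.Y215.CC
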