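import Mathlib
import Pool.Agent.Y215.CC.Act

set_option autoImplicit false

/-!
# Centers and affine changes of coordinates
-/

namespace Pool.Agent.Y215.CC

open MvPolynomial
open scoped LinearAlgebra.Projectivization

/-- linear part of an affine map -/
noncomputable def lin (m : Fin 2 → Fin 2 → ℂ) : (Fin 2 → ℂ) →L[ℂ] (Fin 2 → ℂ) :=
  ContinuousLinearMap.pi fun i => m i 0 • ContinuousLinearMap.proj 0 +
    m i 1 • ContinuousLinearMap.proj 1

/-- an affine map -/
noncomputable def afm (p : Fin 2 → ℂ) (m : Fin 2 → Fin 2 → ℂ) (z : Fin 2 → ℂ) : Fin 2 → ℂ :=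
  p + lin m z

theorem lin_apply (m : Fin 2 → Fin 2 → ℂ) (z : Fin 2 → ℂ) (i : Fin 2) :
    lin m z i = m i 0 * z 0 + m i 1 * z 1 := by simp [lin]

theorem afm_apply (p : Fin 2 → ℂ) (m : Fin 2 → Fin 2 → ℂ) (z : Fin 2 → ℂ) :
    afm p m z = fun i => p i + m i 0 * z 0 + m i 1 * z 1 := by
  funext i
  rw [afm, Pi.add_apply, lin_apply]; ring

theorem afm_inv {p p' : Fin 2 → ℂ} {m m' : Fin 2 → Fin 2 → ℂ} (h : Inv p p' m m')
    (z : Fin 2 → ℂ) : afm p m (afm p' m' z) = z := by
  rw [afm_apply, afm_apply]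
  funext i
  fin_cases i
  · simp only [Fin.zero_eta]
    linear_combination z 0 * h.h00 + z 1 * h.h01 + h.p0
  · simp only [Fin.mk_one]
    linear_combination z 0 * h.h10 + z 1 * h.h11 + h.p1

theorem afm_hasFDerivAt (p : Fin 2 → ℂ) (m : Fin 2 → Fin 2 → ℂ) (z : Fin 2 → ℂ) :
    HasFDerivAt (afm p m) (lin m) z := by
  have := ((lin m).hasFDerivAt (x := z)).const_add p
  exact this

theorem afm_analyticAt (p : Fin 2 → ℂ) (m : Fin 2 → Fin 2 → ℂ) (z : Fin 2 → ℂ) :
    AnalyticAt ℂ (afm p m) z := analyticAt_const.add ((lin m).analyticAt z)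

theorem center_pb {P Q : MvPolynomial (Fin 2) ℂ} (p : Fin 2 → ℂ) (m : Fin 2 → Fin 2 → ℂ)
    (hδ : m 0 0 * m 1 1 - m 0 1 * m 1 0 ≠ 0) (q : Fin 2 → ℂ) (hq : HasCenterAt P Q q) :
    ∃ q', HasCenterAt (pb1 p m P Q) (pb2 p m P Q) q' := by
  obtain ⟨p', m', h, -⟩ := exists_inv p m hδ
  obtain ⟨hP, hQ, hJ, u, v, hu, hv, hu0, hv0, hind, hH⟩ := hq
  refine ⟨afm p' m' q, ?_⟩
  have hA : afm p m (afm p' m' q) = q := afm_inv h q
  have hev : ∀ (z : Fin 2 → ℂ) (F : MvPolynomial (Fin 2) ℂ),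
      eval z (sb p m F) = eval (afm p m z) F := fun z F => by rw [eval_sb, afm_apply]
  have hevq : ∀ F : MvPolynomial (Fin 2) ℂ, eval (afm p' m' q) (sb p m F) = eval q F :=
    fun F => by rw [hev, hA]
  refine ⟨?_, ?_, ?_, u ∘ afm p m, v ∘ afm p m, ?_, ?_, ?_, ?_, ?_, ?_⟩
  · rw [pb1, map_sub, map_mul, map_mul, hevq, hevq, hP, hQ]; simp
  · rw [pb2, map_sub, map_mul, map_mul, hevq, hevq, hP, hQ]; simp
  · have hd1 : ∀ i, eval (afm p' m' q) (pderiv i (pb1 p m P Q)) =
        m 1 1 * (m 0 i * eval q (pderiv 0 P) + m 1 i * eval q (pderiv 1 P)) -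
          m 0 1 * (m 0 i * eval q (pderiv 0 Q) + m 1 i * eval q (pderiv 1 Q)) := by
      intro i
      rw [pb1, map_sub, pderiv_C_mul, pderiv_C_mul, pderiv_sb, pderiv_sb]
      simp only [map_sub, map_add, map_mul, eval_C, hevq]
    have hd2 : ∀ i, eval (afm p' m' q) (pderiv i (pb2 p m P Q)) =
        m 0 0 * (m 0 i * eval q (pderiv 0 Q) + m 1 i * eval q (pderiv 1 Q)) -
          m 1 0 * (m 0 i * eval q (pderiv 0 P) + m 1 i * eval q (pderiv 1 P)) := by
      intro i
      rw [pb2, map_sub, pderiv_C_mul, pderiv_C_mul, pderiv_sb, pderiv_sb]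
      simp only [map_sub, map_add, map_mul, eval_C, hevq]
    rw [map_sub, map_mul, map_mul, hd1, hd2, hd1, hd2]
    rw [map_sub, map_mul, map_mul] at hJ
    have : (m 0 0 * m 1 1 - m 0 1 * m 1 0) ^ 2 * (eval q (pderiv 0 P) * eval q (pderiv 1 Q) -
        eval q (pderiv 1 P) * eval q (pderiv 0 Q)) ≠ 0 := mul_ne_zero (pow_ne_zero 2 hδ) hJ
    convert this using 1
    ring
  · exact AnalyticAt.comp (by rw [hA]; exact hu) (afm_analyticAt p m _)
  · exact AnalyticAt.comp (by rw [hA]; exact hv) (afm_analyticAt p m _)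
  · rw [Function.comp_apply, hA, hu0]
  · rw [Function.comp_apply, hA, hv0]
  · have hfu : fderiv ℂ (u ∘ afm p m) (afm p' m' q) = (fderiv ℂ u q).comp (lin m) := by
      have h1 : HasFDerivAt u (fderiv ℂ u q) (afm p m (afm p' m' q)) := by
        rw [hA]; exact hu.differentiableAt.hasFDerivAt
      exact (h1.comp _ (afm_hasFDerivAt p m _)).fderiv
    have hfv : fderiv ℂ (v ∘ afm p m) (afm p' m' q) = (fderiv ℂ v q).comp (lin m) := by
      have h1 : HasFDerivAt v (fderiv ℂ v q) (afm p m (afm p' m' q)) := by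
        rw [hA]; exact hv.differentiableAt.hasFDerivAt
      exact (h1.comp _ (afm_hasFDerivAt p m _)).fderiv
    rw [hfu, hfv]
    rw [LinearIndependent.pair_iff] at hind ⊢
    intro s t hst
    apply hind s t
    ext1 z
    have hz : lin m (lin m' z) = z := by
      funext i
      rw [lin_apply, lin_apply, lin_apply]
      fin_cases i
      · simp only [Fin.zero_eta]
        linear_combination z 0 * h.h00 + z 1 * h.h01
      · simp only [Fin.mk_one]
        linear_combination z 0 * h.h10 + z 1 * h.h11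
    have := congrArg (fun f => f (lin m' z)) hst
    simpa [hz] using this
  · set H : (Fin 2 → ℂ) → ℂ := fun s => u s ^ 2 + v s ^ 2 with hHdef
    have hHan : AnalyticAt ℂ H q := (hu.pow 2).add (hv.pow 2)
    have hcont : Filter.Tendsto (afm p m) (nhds (afm p' m' q)) (nhds q) := by
      have := (afm_analyticAt p m (afm p' m' q)).continuousAt
      rw [ContinuousAt, hA] at this
      exact this
    filter_upwards [hcont.eventually hH, hcont.eventually hHan.eventually_analyticAt] with z hz1 hz2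
    have hcomp : (fun s => (u ∘ afm p m) s ^ 2 + (v ∘ afm p m) s ^ 2) = H ∘ afm p m := rfl
    have hfd : fderiv ℂ (H ∘ afm p m) z = (fderiv ℂ H (afm p m z)).comp (lin m) :=
      (hz2.differentiableAt.hasFDerivAt.comp _ (afm_hasFDerivAt p m _)).fderiv
    rw [hcomp, hfd]
    have hL : ∀ i, lin m (Pi.single i 1) = m 0 i • Pi.single 0 1 + m 1 i • Pi.single 1 1 := by
      intro i
      funext j
      rw [lin_apply]
      fin_cases i <;> fin_cases j <;> simp
    rw [ContinuousLinearMap.comp_apply, ContinuousLinearMap.comp_apply, hL, hL]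
    rw [map_add, map_add, map_smul, map_smul, map_smul, map_smul, pb1, pb2, map_sub, map_sub,
      map_mul, map_mul, map_mul, map_mul, hev, hev, eval_C, eval_C, eval_C, eval_C]
    simp only [smul_eq_mul]
    linear_combination (m 0 0 * m 1 1 - m 0 1 * m 1 0) * hz1


end Pool.Agent.Y215.CC
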