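import Mathlib
import Pool.Agent.Y215.CC.Zar

set_option autoImplicit false

/-!
# The Zariski topology is Noetherian, components of a closure meet the set
-/

namespace Pool.Agent.Y215.CC

open MvPolynomial TopologicalSpace
open scoped LinearAlgebra.Projectivization

variable {ι : Type}

/-- vanishing ideal (all polynomials vanishing on the cone minus the origin) -/
def van (Z : Set (ℙ ℂ (ι → ℂ))) : Ideal (MvPolynomial ι ℂ) where
  carrier := {F | ∀ (v : ι → ℂ) (hv : v ≠ 0), Projectivization.mk ℂ v hv ∈ Z → eval v F = 0}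
  add_mem' := by
    intro a b ha hb v hv h
    rw [map_add, ha v hv h, hb v hv h, add_zero]
  zero_mem' := by
    intro v hv h
    rw [map_zero]
  smul_mem' := by
    intro c a ha v hv h
    rw [smul_eq_mul, map_mul, ha v hv h, mul_zero]

theorem van_anti {Y Z : Set (ℙ ℂ (ι → ℂ))} (h : Y ⊆ Z) : van Z ≤ van Y :=
  fun _ hF v hv hm => hF v hv (h hm)

theorem sub_of_van {Y Z : Set (ℙ ℂ (ι → ℂ))} (hY : IsClosed Y) (h : van Y ≤ van Z) : Z ⊆ Y := by
  obtain ⟨S, -, hS⟩ := (isClosed_iff Y).1 hY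
  intro x hx
  induction x using Projectivization.ind with
  | h v hv =>
    rw [hS]
    intro F hF
    exact h (show F ∈ van Y from fun v hv hm => (hS v hv).1 hm F hF) v hv hx

instance noeth [Finite ι] : NoetherianSpace (ℙ ℂ (ι → ℂ)) := by
  rw [((noetherianSpace_TFAE (ℙ ℂ (ι → ℂ))).out 0 1 :)]
  have hmono : StrictMono (fun Z : Closeds (ℙ ℂ (ι → ℂ)) =>
      OrderDual.toDual (van (Z : Set (ℙ ℂ (ι → ℂ))))) := by
    intro Y Z h
    rw [OrderDual.toDual_lt_toDual]
    refine lt_of_le_not_ge (van_anti h.le) fun hcon => ?_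
    exact not_le_of_gt h (sub_of_van Y.isClosed hcon)
  exact hmono.wellFoundedLT

/-- an irreducible component of the closure of `C` contains a point of `C` -/
theorem comp_meets [Finite ι] {C X : Set (ℙ ℂ (ι → ℂ))}
    (hX : Maximal (fun Z => IsIrreducible Z ∧ Z ⊆ closure C) X) : (X ∩ C).Nonempty := by
  obtain ⟨S, hSf, hSc, hSi, hS⟩ := NoetherianSpace.exists_finite_set_isClosed_irreducible
    (isClosed_closure (s := C))
  have hCU : C ⊆ ⋃₀ {T | T ∈ S ∧ (T ∩ C).Nonempty} := by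
    intro x hx
    have : x ∈ ⋃₀ S := hS ▸ subset_closure hx
    obtain ⟨T, hT, hxT⟩ := this
    exact ⟨T, ⟨hT, x, hxT, hx⟩, hxT⟩
  have hfin : {T | T ∈ S ∧ (T ∩ C).Nonempty}.Finite := hSf.subset fun T hT => hT.1
  have hcl : IsClosed (⋃₀ {T | T ∈ S ∧ (T ∩ C).Nonempty}) := by
    rw [Set.sUnion_eq_biUnion]
    exact hfin.isClosed_biUnion fun T hT => hSc T hT.1
  have hXU : X ⊆ ⋃₀ {T | T ∈ S ∧ (T ∩ C).Nonempty} :=
    hX.prop.2.trans (closure_minimal hCU hcl)
  obtain ⟨T, hT, hXT⟩ := isIrreducible_iff_sUnion_isClosed.1 hX.prop.1 hfin.toFinset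
    (fun T hT => hSc T (hfin.mem_toFinset.1 hT).1) (by rwa [hfin.coe_toFinset])
  rw [hfin.mem_toFinset] at hT
  have hTM : T ⊆ closure C := by
    rw [hS]
    exact Set.subset_sUnion_of_mem hT.1
  have hTX : T ⊆ X := hX.le_of_ge ⟨hSi T hT.1, hTM⟩ hXT
  exact hT.2.mono (Set.inter_subset_inter_left _ hTX)

end Pool.Agent.Y215.CC
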