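import Mathlib
import Pool.Agent.Y215.CC.Cen
import Pool.Agent.Y215.CC.Noe

set_option autoImplicit false

/-!
# The closure of the set of foliations with a center and its components are invariant
-/

namespace Pool.Agent.Y215.CC

open MvPolynomial
open scoped LinearAlgebra.Projectivization

/-- `L` is the pullback by the affine map `(p, m)` -/
def IsPb {d : ℕ} (p : Fin 2 → ℂ) (m : Fin 2 → Fin 2 → ℂ) (L : Frm d →ₗ[ℂ] Frm d) : Prop :=
  ∀ w, fP (L w) = pb1 p m (fP w) (fQ w) ∧ fQ (L w) = pb2 p m (fP w) (fQ w)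

theorem exists_pb (d : ℕ) (p : Fin 2 → ℂ) (m : Fin 2 → Fin 2 → ℂ) :
    ∃ L : Frm d →ₗ[ℂ] Frm d, IsPb p m L := ⟨pbL d p m, fun w => ⟨fP_pbL p m w, fQ_pbL p m w⟩⟩

theorem isPb_inj {d : ℕ} {p : Fin 2 → ℂ} {m : Fin 2 → Fin 2 → ℂ} {L : Frm d →ₗ[ℂ] Frm d}
    (h : IsPb p m L) (hδ : m 0 0 * m 1 1 - m 0 1 * m 1 0 ≠ 0) : Function.Injective L := by
  obtain ⟨p', m', hi, -⟩ := exists_inv p m hδ
  intro w w' hw
  have hP := congrArg fP hw
  have hQ := congrArg fQ hw
  rw [(h w).1, (h w').1] at hP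
  rw [(h w).2, (h w').2] at hQ
  apply frm_ext
  · rw [← pb1_pb hi (fP w) (fQ w), hP, hQ, pb1_pb hi]
  · rw [← pb2_pb hi (fP w) (fQ w), hP, hQ, pb2_pb hi]

theorem map_mk' {d : ℕ} (L : Frm d →ₗ[ℂ] Frm d) (hL : Function.Injective L) (w : Frm d)
    (hw : w ≠ 0) (hw' : L w ≠ 0) :
    Projectivization.map L hL (Projectivization.mk ℂ w hw) = Projectivization.mk ℂ (L w) hw' :=
  Projectivization.map_mk _ _ _ _

theorem centers_inv {d : ℕ} {p : Fin 2 → ℂ} {m : Fin 2 → Fin 2 → ℂ} {L : Frm d →ₗ[ℂ] Frm d}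
    (h : IsPb p m L) (hδ : m 0 0 * m 1 1 - m 0 1 * m 1 0 ≠ 0) (hL : Function.Injective L)
    (x : ℙ ℂ (Frm d)) (hx : x ∈ centers d) : Projectivization.map L hL x ∈ centers d := by
  obtain ⟨w, hw, rfl, h1, h2, q, hq⟩ := hx
  have hw' : L w ≠ 0 := by
    intro h0
    apply hw
    apply hL
    rw [h0, map_zero]
  rw [map_mk' L hL w hw hw']
  refine ⟨L w, hw', rfl, ?_, ?_, ?_⟩
  · rw [(h w).1, (h w).2]; exact rel_pb p m hδ h1
  · rw [(h w).1, (h w).2, deg_eq_pb p m hδ, h2]
  · rw [(h w).1, (h w).2]; exact center_pb p m hδ q hq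

theorem closure_inv {d : ℕ} {p : Fin 2 → ℂ} {m : Fin 2 → Fin 2 → ℂ} {L : Frm d →ₗ[ℂ] Frm d}
    (h : IsPb p m L) (hδ : m 0 0 * m 1 1 - m 0 1 * m 1 0 ≠ 0) (hL : Function.Injective L)
    (x : ℙ ℂ (Frm d)) (hx : x ∈ closure (centers d)) :
    Projectivization.map L hL x ∈ closure (centers d) := by
  classical
  have hcl := closed_preimage (isClosed_closure (s := centers d)) L hL
  have hsub : centers d ⊆ Projectivization.map L hL ⁻¹' closure (centers d) := by
    intro y hy
    rw [Set.mem_preimage]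
    exact subset_closure (centers_inv h hδ hL y hy)
  exact closure_minimal hsub hcl hx

/-- an irreducible component of the closure of `centers d` is stable under invertible affine
changes of coordinates -/
theorem comp_affine {d : ℕ} {X : Set (ℙ ℂ (Frm d))}
    (hX : Maximal (fun Z => IsIrreducible Z ∧ Z ⊆ closure (centers d)) X)
    (p : Fin 2 → ℂ) (m : Fin 2 → Fin 2 → ℂ) (hδ : m 0 0 * m 1 1 - m 0 1 * m 1 0 ≠ 0)
    (w : Frm d) (hw : w ≠ 0) (hwX : Projectivization.mk ℂ w hw ∈ X)
    (w' : Frm d) (hw' : w' ≠ 0) (h1 : fP w' = pb1 p m (fP w) (fQ w))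
    (h2 : fQ w' = pb2 p m (fP w) (fQ w)) : Projectivization.mk ℂ w' hw' ∈ X := by
  classical
  -- the path from the identity
  set pp : Fin 2 → Polynomial ℂ := fun i => Polynomial.X * Polynomial.C (p i) with hpp
  set mm : Fin 2 → Fin 2 → Polynomial ℂ := fun i j =>
    (1 - Polynomial.X) * (if i = j then 1 else 0) + Polynomial.X * Polynomial.C (m i j) with hmm
  have hpe : ∀ (t : ℂ) i, (pp i).eval t = t * p i := by
    intro t i; simp [hpp]; ring
  have hme : ∀ (t : ℂ) i j, (mm i j).eval t = (1 - t) * (if i = j then 1 else 0) + t * m i j := by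
    intro t i j
    by_cases hij : i = j <;> simp [hmm, hij] <;> ring
  set D : Polynomial ℂ := mm 0 0 * mm 1 1 - mm 0 1 * mm 1 0 with hD
  have hD0 : D ≠ 0 := by
    intro h0
    have : D.eval 0 = 1 := by
      rw [hD]
      simp [hme]
    rw [h0, Polynomial.eval_zero] at this
    exact zero_ne_one this
  choose L hLpb using fun t : ℂ => exists_pb d (fun i => t * p i)
    (fun i j => (1 - t) * (if i = j then 1 else 0) + t * m i j)
  set G : Set ℂ := {t | D.eval t ≠ 0} with hG
  have hGf : Gᶜ.Finite := by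
    have : Gᶜ = {t | D.IsRoot t} := by
      ext t
      simp [hG, Polynomial.IsRoot.def]
    rw [this]
    exact Polynomial.finite_setOfPred_isRoot hD0
  have hδt : ∀ t ∈ G, ((1 - t) * (if (0 : Fin 2) = 0 then 1 else 0) + t * m 0 0) *
      ((1 - t) * (if (1 : Fin 2) = 1 then 1 else 0) + t * m 1 1) -
      ((1 - t) * (if (0 : Fin 2) = 1 then 1 else 0) + t * m 0 1) *
      ((1 - t) * (if (1 : Fin 2) = 0 then 1 else 0) + t * m 1 0) ≠ 0 := by
    intro t ht
    have : D.eval t ≠ 0 := ht
    rw [hD, Polynomial.eval_sub, Polynomial.eval_mul, Polynomial.eval_mul, hme, hme, hme, hme]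
      at this
    exact this
  have hL : ∀ t ∈ G, Function.Injective (L t) := fun t ht => isPb_inj (hLpb t) (hδt t ht)
  -- polynomial dependence
  set c : (Fin 2 × Ex d → ℂ) → Fin 2 × Ex d → Polynomial ℂ := fun v =>
    enc d (pb1 pp mm (map Polynomial.C (fP v)) (map Polynomial.C (fQ v)))
      (pb2 pp mm (map Polynomial.C (fP v)) (map Polynomial.C (fQ v))) with hc
  have hcc : ∀ v i t, (c v i).eval t = L t v i := by
    intro v i t
    have e0 : ∀ F : MvPolynomial (Fin 2) ℂ,
        map (Polynomial.evalRingHom t) (map Polynomial.C F) = F := by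
      intro F
      rw [map_map]
      have : (Polynomial.evalRingHom t).comp Polynomial.C = RingHom.id ℂ := by
        ext; simp
      rw [this, map_id]
    have epp : (fun i => (Polynomial.evalRingHom t) (pp i)) = fun i => t * p i :=
      funext fun i => hpe t i
    have emm : (fun i j => (Polynomial.evalRingHom t) (mm i j)) = fun i j =>
        (1 - t) * (if i = j then 1 else 0) + t * m i j :=
      funext fun i => funext fun j => hme t i j
    have e1 : map (Polynomial.evalRingHom t)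
        (pb1 pp mm (map Polynomial.C (fP v)) (map Polynomial.C (fQ v))) = fP (L t v) := by
      rw [map_pb1, e0, e0, epp, emm, (hLpb t v).1]
    have e2 : map (Polynomial.evalRingHom t)
        (pb2 pp mm (map Polynomial.C (fP v)) (map Polynomial.C (fQ v))) = fQ (L t v) := by
      rw [map_pb2, e0, e0, epp, emm, (hLpb t v).2]
    rw [← enc_fPQ (L t v), ← e1, ← e2]
    obtain ⟨i, e⟩ := i
    by_cases hi : i = 0
    · simp only [hc, enc, hi, if_true, coeff_map]; rfl
    · simp only [hc, enc, hi, if_false, coeff_map]; rfl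
  have h1G : (1 : ℂ) ∈ G := by
    change D.eval 1 ≠ 0
    rw [hD, Polynomial.eval_sub, Polynomial.eval_mul, Polynomial.eval_mul, hme, hme, hme, hme]
    simpa using hδ
  have h0G : (0 : ℂ) ∈ G := by
    change D.eval 0 ≠ 0
    rw [hD, Polynomial.eval_sub, Polynomial.eval_mul, Polynomial.eval_mul, hme, hme, hme, hme]
    simp
  have hid : L 0 = LinearMap.id := by
    apply LinearMap.ext
    intro v
    have h0p : (fun i => (0 : ℂ) * p i) = fun _ => (0 : ℂ) := by funext i; simp
    have h0m : (fun i j => (1 - (0 : ℂ)) * (if i = j then 1 else 0) + 0 * m i j) =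
        fun i j => if i = j then (1 : ℂ) else 0 := by funext i j; simp
    have := hLpb 0 v
    rw [h0p, h0m] at this
    apply frm_ext
    · rw [this.1, LinearMap.id_apply, pb1, sb_id, sb_id]; simp
    · rw [this.2, LinearMap.id_apply, pb2, sb_id, sb_id]; simp
  have key := comp_inv hX L c hcc G hGf hL
    (fun t ht x hx => closure_inv (hLpb t) (hδt t ht) (hL t ht) x hx) h0G hid 1 h1G
    (Projectivization.mk ℂ w hw) hwX
  have h1p : (fun i => (1 : ℂ) * p i) = p := by funext i; simp
  have h1m : (fun i j => (1 - (1 : ℂ)) * (if i = j then 1 else 0) + 1 * m i j) = m := by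
    funext i j; simp
  have h1L := hLpb 1 w
  rw [h1p, h1m] at h1L
  have hLw : L 1 w = w' := frm_ext (by rw [h1L.1, h1]) (by rw [h1L.2, h2])
  have hLw0 : L 1 w ≠ 0 := by rw [hLw]; exact hw'
  rw [map_mk' (L 1) (hL 1 h1G) w hw hLw0] at key
  convert key using 2
  exact hLw.symm

end Pool.Agent.Y215.CC
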