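import Mathlib
import Pool.Agent.Y215.CC.Act

set_option autoImplicit false

/-!
# The linear part of a form at a center
-/

namespace Pool.Agent.Y215.CC

open MvPolynomial Filter Topology

theorem eval_deriv (P : MvPolynomial (Fin 2) ℂ) (q z : Fin 2 → ℂ) :
    HasDerivAt (fun t : ℂ => eval (q + t • z) P)
      (eval q (pderiv 0 P) * z 0 + eval q (pderiv 1 P) * z 1) 0 := by
  induction P using MvPolynomial.induction_on with
  | C a => simpa using hasDerivAt_const (0 : ℂ) a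
  | add p r hp hr =>
    have h1 := hp.add hr
    have h2 : (fun t : ℂ => eval (q + t • z) (p + r)) =
        (fun t => eval (q + t • z) p) + fun t => eval (q + t • z) r := by
      funext t; simp
    rw [h2]
    refine HasDerivAt.congr_deriv h1 ?_
    simp only [map_add]
    ring
  | mul_X p j hp =>
    have hj : HasDerivAt (fun t : ℂ => (q + t • z) j) (z j) 0 := by
      have : HasDerivAt (fun t : ℂ => q j + t * z j) (z j) 0 := by
        simpa using ((hasDerivAt_id (0 : ℂ)).mul_const (z j)).const_add (q j)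
      exact this
    have h1 := hp.mul hj
    have h2 : (fun t : ℂ => eval (q + t • z) (p * X j)) =
        (fun t => eval (q + t • z) p) * fun t => (q + t • z) j := by
      funext t; simp
    rw [h2]
    refine HasDerivAt.congr_deriv h1 ?_
    have h3 : ∀ k, eval q (pderiv k (p * X j)) =
        eval q p * (if j = k then 1 else 0) + q j * eval q (pderiv k p) := by
      intro k
      rw [Derivation.leibniz, pderiv_X, smul_eq_mul, smul_eq_mul, map_add, map_mul, map_mul, eval_X]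
      by_cases hk : j = k
      · subst hk; simp
      · simp [hk]
    rw [h3, h3]
    simp only [zero_smul, add_zero]
    fin_cases j
    · simp only [Fin.zero_eta, Fin.isValue, if_true, zero_ne_one, if_false]; ring
    · simp only [Fin.mk_one, Fin.isValue, if_true, one_ne_zero, if_false]; ring

theorem center_lim {P Q : MvPolynomial (Fin 2) ℂ} {q : Fin 2 → ℂ} {u v : (Fin 2 → ℂ) → ℂ}
    (hP : eval q P = 0) (hQ : eval q Q = 0)
    (hu : AnalyticAt ℂ u q) (hv : AnalyticAt ℂ v q) (hu0 : u q = 0) (hv0 : v q = 0)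
    (hH : ∀ᶠ z in nhds q, eval z P * fderiv ℂ (fun s => u s ^ 2 + v s ^ 2) z (Pi.single 0 1) +
      eval z Q * fderiv ℂ (fun s => u s ^ 2 + v s ^ 2) z (Pi.single 1 1) = 0) (z : Fin 2 → ℂ) :
    (eval q (pderiv 0 P) * z 0 + eval q (pderiv 1 P) * z 1) *
      (2 * (fderiv ℂ u q z * fderiv ℂ u q (Pi.single 0 1) +
        fderiv ℂ v q z * fderiv ℂ v q (Pi.single 0 1))) +
    (eval q (pderiv 0 Q) * z 0 + eval q (pderiv 1 Q) * z 1) *
      (2 * (fderiv ℂ u q z * fderiv ℂ u q (Pi.single 1 1) +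
        fderiv ℂ v q z * fderiv ℂ v q (Pi.single 1 1))) = 0 := by
  have hline : HasDerivAt (fun t : ℂ => q + t • z) z 0 := by
    simpa using ((hasDerivAt_id (0 : ℂ)).smul_const z).const_add q
  have hl0 : q + (0 : ℂ) • z = q := by simp
  have hcont : Tendsto (fun t : ℂ => q + t • z) (𝓝[≠] 0) (𝓝 q) := by
    have := hline.continuousAt.tendsto
    rw [hl0] at this
    exact this.mono_left nhdsWithin_le_nhds
  have hsl : ∀ (F : (Fin 2 → ℂ) → ℂ) (F' : ℂ), F q = 0 →
      HasDerivAt (fun t : ℂ => F (q + t • z)) F' 0 →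
      Tendsto (fun t : ℂ => t⁻¹ * F (q + t • z)) (𝓝[≠] 0) (𝓝 F') := by
    intro F F' hF0 hF
    have := hF.tendsto_slope_zero
    simpa [hF0] using this
  have tP := hsl (fun s => eval s P) _ hP (eval_deriv P q z)
  have tQ := hsl (fun s => eval s Q) _ hQ (eval_deriv Q q z)
  have tdir : ∀ (F : (Fin 2 → ℂ) → ℂ), AnalyticAt ℂ F q → F q = 0 →
      Tendsto (fun t : ℂ => t⁻¹ * F (q + t • z)) (𝓝[≠] 0) (𝓝 (fderiv ℂ F q z)) := by
    intro F hF hF0
    apply hsl F _ hF0
    have h1 : HasFDerivAt F (fderiv ℂ F q) (q + (0 : ℂ) • z) := by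
      rw [hl0]; exact hF.differentiableAt.hasFDerivAt
    exact h1.comp_hasDerivAt (0 : ℂ) hline
  have tu := tdir u hu hu0
  have tv := tdir v hv hv0
  have tfd : ∀ (F : (Fin 2 → ℂ) → ℂ) (e : Fin 2 → ℂ), AnalyticAt ℂ F q →
      Tendsto (fun t : ℂ => fderiv ℂ F (q + t • z) e) (𝓝[≠] 0) (𝓝 (fderiv ℂ F q e)) := by
    intro F e hF
    have h1 : Tendsto (fun s => fderiv ℂ F s e) (𝓝 q) (𝓝 (fderiv ℂ F q e)) := by
      have := hF.fderiv.continuousAt
      exact (this.clm_apply continuousAt_const).tendsto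
    exact h1.comp hcont
  have hHe : ∀ e : Fin 2 → ℂ, ∀ᶠ s in 𝓝 q, fderiv ℂ (fun s => u s ^ 2 + v s ^ 2) s e =
      2 * (u s * fderiv ℂ u s e + v s * fderiv ℂ v s e) := by
    intro e
    filter_upwards [hu.eventually_analyticAt, hv.eventually_analyticAt] with s hus hvs
    have h1 : HasFDerivAt u (fderiv ℂ u s) s := hus.differentiableAt.hasFDerivAt
    have h2 : HasFDerivAt v (fderiv ℂ v s) s := hvs.differentiableAt.hasFDerivAt
    have h3 := (h1.mul h1).add (h2.mul h2)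
    have h4 : (fun s => u s ^ 2 + v s ^ 2) = (u * u) + (v * v) := by
      funext s; simp [pow_two]
    rw [h4]
    erw [h3.fderiv]
    simp
    ring
  have tH : ∀ e : Fin 2 → ℂ, Tendsto
      (fun t : ℂ => t⁻¹ * fderiv ℂ (fun s => u s ^ 2 + v s ^ 2) (q + t • z) e) (𝓝[≠] 0)
      (𝓝 (2 * (fderiv ℂ u q z * fderiv ℂ u q e + fderiv ℂ v q z * fderiv ℂ v q e))) := by
    intro e
    have h1 := ((tu.mul (tfd u e hu)).add (tv.mul (tfd v e hv))).const_mul 2
    refine h1.congr' ?_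
    filter_upwards [hcont.eventually (hHe e)] with t ht
    rw [ht]
    ring
  have tot := (tP.mul (tH (Pi.single 0 1))).add (tQ.mul (tH (Pi.single 1 1)))
  refine tendsto_nhds_unique tot ?_
  refine (tendsto_const_nhds (x := (0 : ℂ))).congr' ?_
  filter_upwards [hcont.eventually hH] with t ht
  linear_combination (-(t⁻¹ * t⁻¹)) * ht

/-- the linear part at a center -/
theorem center_alg {P Q : MvPolynomial (Fin 2) ℂ} {q : Fin 2 → ℂ} (h : HasCenterAt P Q q) :
    ∃ (a1 a2 b1 b2 c : ℂ), a1 * b2 - a2 * b1 ≠ 0 ∧ c ≠ 0 ∧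
      eval q (pderiv 0 P) = c * (a1 * a2 + b1 * b2) ∧
      eval q (pderiv 1 P) = c * (a2 ^ 2 + b2 ^ 2) ∧
      eval q (pderiv 0 Q) = -c * (a1 ^ 2 + b1 ^ 2) ∧
      eval q (pderiv 1 Q) = -c * (a1 * a2 + b1 * b2) := by
  obtain ⟨hP, hQ, hJ, u, v, hu, hv, hu0, hv0, hind, hH⟩ := h
  set a1 := fderiv ℂ u q (Pi.single 0 1) with ha1
  set a2 := fderiv ℂ u q (Pi.single 1 1) with ha2
  set b1 := fderiv ℂ v q (Pi.single 0 1) with hb1
  set b2 := fderiv ℂ v q (Pi.single 1 1) with hb2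
  have hz : ∀ z : Fin 2 → ℂ, z = z 0 • Pi.single 0 1 + z 1 • Pi.single 1 1 := by
    intro z; funext i; fin_cases i <;> simp
  have huz : ∀ z, fderiv ℂ u q z = a1 * z 0 + a2 * z 1 := by
    intro z
    conv_lhs => rw [hz z]
    rw [map_add, map_smul, map_smul, smul_eq_mul, smul_eq_mul]; ring
  have hvz : ∀ z, fderiv ℂ v q z = b1 * z 0 + b2 * z 1 := by
    intro z
    conv_lhs => rw [hz z]
    rw [map_add, map_smul, map_smul, smul_eq_mul, smul_eq_mul]; ring
  have hδ : a1 * b2 - a2 * b1 ≠ 0 := by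
    intro h0
    rw [LinearIndependent.pair_iff] at hind
    have h1 := hind b2 (-a2) (by
      ext z
      simp only [add_apply, smul_apply, smul_eq_mul, huz,
        hvz, zero_apply]
      linear_combination z 0 * h0)
    have h2 := hind b1 (-a1) (by
      ext z
      simp only [add_apply, smul_apply, smul_eq_mul, huz,
        hvz, zero_apply]
      linear_combination (-z 1) * h0)
    have h3 := hind 1 0 (by
      ext z
      simp only [add_apply, smul_apply, smul_eq_mul, huz,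
        hvz, zero_apply]
      rw [neg_eq_zero.1 h1.2, neg_eq_zero.1 h2.2]; ring)
    exact one_ne_zero h3.1
  set Px := eval q (pderiv 0 P)
  set Py := eval q (pderiv 1 P)
  set Qx := eval q (pderiv 0 Q)
  set Qy := eval q (pderiv 1 Q)
  have key : ∀ x y : ℂ, (Px * x + Py * y) * ((a1 * x + a2 * y) * a1 + (b1 * x + b2 * y) * b1) +
      (Qx * x + Qy * y) * ((a1 * x + a2 * y) * a2 + (b1 * x + b2 * y) * b2) = 0 := by
    intro x y
    have := center_lim hP hQ hu hv hu0 hv0 hH ![x, y]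
    rw [huz, hvz] at this
    simp only [Matrix.cons_val_zero, Matrix.cons_val_one] at this
    linear_combination (1 / 2 : ℂ) * this
  have k1 := key 1 0
  have k2 := key 0 1
  have k3 := key 1 1
  have e1 : Px * (a1 ^ 2 + b1 ^ 2) + Qx * (a1 * a2 + b1 * b2) = 0 := by
    linear_combination k1
  have e2 : Py * (a1 * a2 + b1 * b2) + Qy * (a2 ^ 2 + b2 ^ 2) = 0 := by
    linear_combination k2
  have e3 : Px * (a1 * a2 + b1 * b2) + Py * (a1 ^ 2 + b1 ^ 2) + Qx * (a2 ^ 2 + b2 ^ 2) +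
      Qy * (a1 * a2 + b1 * b2) = 0 := by
    linear_combination k3 - k1 - k2
  have hΔ : (a1 ^ 2 + b1 ^ 2) * (a2 ^ 2 + b2 ^ 2) - (a1 * a2 + b1 * b2) ^ 2 =
      (a1 * b2 - a2 * b1) ^ 2 := by ring
  have hΔ0 : (a1 * b2 - a2 * b1) ^ 2 ≠ 0 := pow_ne_zero 2 hδ
  set c := -(Qx * (a2 ^ 2 + b2 ^ 2) + (a1 * a2 + b1 * b2) * Px) / (a1 * b2 - a2 * b1) ^ 2 with hc
  have hcΔ : c * (a1 * b2 - a2 * b1) ^ 2 =
      -(Qx * (a2 ^ 2 + b2 ^ 2) + (a1 * a2 + b1 * b2) * Px) := by
    rw [hc, div_mul_cancel₀ _ hΔ0]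
  have f1 : Px = c * (a1 * a2 + b1 * b2) := by
    apply mul_right_cancel₀ hΔ0
    linear_combination (-(a1 * a2 + b1 * b2)) * hcΔ - Px * hΔ + (a2 ^ 2 + b2 ^ 2) * e1
  have f2 : Py = c * (a2 ^ 2 + b2 ^ 2) := by
    apply mul_right_cancel₀ hΔ0
    linear_combination (-(a2 ^ 2 + b2 ^ 2)) * hcΔ - Py * hΔ + (a2 ^ 2 + b2 ^ 2) * e3 -
      (a1 * a2 + b1 * b2) * e2
  have f3 : Qx = -c * (a1 ^ 2 + b1 ^ 2) := by
    apply mul_right_cancel₀ hΔ0
    linear_combination (a1 ^ 2 + b1 ^ 2) * hcΔ - Qx * hΔ - (a1 * a2 + b1 * b2) * e1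
  have f4 : Qy = -c * (a1 * a2 + b1 * b2) := by
    apply mul_right_cancel₀ hΔ0
    linear_combination (a1 * a2 + b1 * b2) * hcΔ - Qy * hΔ - (a1 * a2 + b1 * b2) * e3 +
      (a1 ^ 2 + b1 ^ 2) * e2
  refine ⟨a1, a2, b1, b2, c, hδ, ?_, f1, f2, f3, f4⟩
  intro hc0
  apply hJ
  rw [map_sub, map_mul, map_mul]
  change Px * Qy - Py * Qx = 0
  rw [f1, f2, hc0]; ring

end Pool.Agent.Y215.CC
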