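import Mathlib
import Pool.Agent.Y215.CC.Inv
import Pool.Agent.Y215.CC.Lim

set_option autoImplicit false

/-!
# Zooming in at a center
-/

namespace Pool.Agent.Y215.CC

open MvPolynomial
open scoped LinearAlgebra.Projectivization

/-- linear form -/
noncomputable def lf (N : Fin 2 → Fin 2 → ℂ) (i : Fin 2) : MvPolynomial (Fin 2) ℂ :=
  C (N i 0) * X 0 + C (N i 1) * X 1

/-- linear part of `P` at `q` in the new coordinates -/
noncomputable def lin1 (N : Fin 2 → Fin 2 → ℂ) (q : Fin 2 → ℂ) (P : MvPolynomial (Fin 2) ℂ) :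
    MvPolynomial (Fin 2) ℂ := C (eval q (pderiv 0 P)) * lf N 0 + C (eval q (pderiv 1 P)) * lf N 1

theorem aff_lf (N : Fin 2 → Fin 2 → ℂ) (q : Fin 2 → ℂ) (j : Fin 2) :
    aff (fun i => Polynomial.C (q i)) (fun i j => Polynomial.X * Polynomial.C (N i j)) j =
      C (Polynomial.C (q j)) + C Polynomial.X * map Polynomial.C (lf N j) := by
  have h : map Polynomial.C (lf N j) =
      C (Polynomial.C (N j 0)) * X 0 + C (Polynomial.C (N j 1)) * X 1 := by
    rw [lf, map_add, map_mul, map_mul, MvPolynomial.map_C, MvPolynomial.map_C, map_X, map_X]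
  rw [h, aff, C_mul, C_mul]
  ring

theorem taylor (N : Fin 2 → Fin 2 → ℂ) (q : Fin 2 → ℂ) (P : MvPolynomial (Fin 2) ℂ) :
    ∃ R : MvPolynomial (Fin 2) (Polynomial ℂ),
      sb (fun i => Polynomial.C (q i)) (fun i j => Polynomial.X * Polynomial.C (N i j))
        (map Polynomial.C P) = C (Polynomial.C (eval q P)) +
          C Polynomial.X * map Polynomial.C (lin1 N q P) + C (Polynomial.X ^ 2) * R := by
  induction P using MvPolynomial.induction_on with
  | C a => exact ⟨0, by simp [sb, lin1]⟩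
  | add p r hp hr =>
    obtain ⟨R, hR⟩ := hp
    obtain ⟨R', hR'⟩ := hr
    refine ⟨R + R', ?_⟩
    have h1 : sb (fun i => Polynomial.C (q i)) (fun i j => Polynomial.X * Polynomial.C (N i j))
        (map Polynomial.C (p + r)) =
        sb (fun i => Polynomial.C (q i)) (fun i j => Polynomial.X * Polynomial.C (N i j))
        (map Polynomial.C p) +
        sb (fun i => Polynomial.C (q i)) (fun i j => Polynomial.X * Polynomial.C (N i j))
        (map Polynomial.C r) := by simp only [sb, map_add]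
    rw [h1, hR, hR']
    simp only [lin1, map_add, map_mul, MvPolynomial.map_C]
    ring
  | mul_X p j hp =>
    obtain ⟨R, hR⟩ := hp
    refine ⟨R * C (Polynomial.C (q j)) + map Polynomial.C (lin1 N q p) * map Polynomial.C (lf N j) +
      C Polynomial.X * R * map Polynomial.C (lf N j), ?_⟩
    have h1 : sb (fun i => Polynomial.C (q i)) (fun i j => Polynomial.X * Polynomial.C (N i j))
        (map Polynomial.C (p * X j)) =
        sb (fun i => Polynomial.C (q i)) (fun i j => Polynomial.X * Polynomial.C (N i j))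
        (map Polynomial.C p) * (C (Polynomial.C (q j)) +
          C Polynomial.X * map Polynomial.C (lf N j)) := by
      rw [← aff_lf, map_mul, map_X, sb, sb, map_mul, bind₁_X_right]
    have h3 : ∀ k, eval q (pderiv k (p * X j)) =
        eval q p * (if j = k then 1 else 0) + q j * eval q (pderiv k p) := by
      intro k
      rw [Derivation.leibniz, pderiv_X, smul_eq_mul, smul_eq_mul, map_add, map_mul, map_mul, eval_X]
      by_cases hk : j = k
      · subst hk; simp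
      · simp [hk]
    have h4 : lin1 N q (p * X j) = C (eval q p) * lf N j + C (q j) * lin1 N q p := by
      rw [lin1, h3, h3, lin1]
      fin_cases j
      · simp only [Fin.zero_eta, Fin.isValue, if_true, zero_ne_one, if_false, map_add, map_mul]
        simp
        ring
      · simp only [Fin.mk_one, Fin.isValue, if_true, one_ne_zero, if_false, map_add, map_mul]
        simp
        ring
    have h5 : map Polynomial.C (lin1 N q (p * X j)) =
        C (Polynomial.C (eval q p)) * map Polynomial.C (lf N j) +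
          C (Polynomial.C (q j)) * map Polynomial.C (lin1 N q p) := by
      rw [h4, map_add, map_mul, map_mul, MvPolynomial.map_C, MvPolynomial.map_C]
    have h6 : (C (Polynomial.C (eval q (p * X j))) : MvPolynomial (Fin 2) (Polynomial ℂ)) =
        C (Polynomial.C (eval q p)) * C (Polynomial.C (q j)) := by
      rw [map_mul, eval_X, Polynomial.C_mul, C_mul]
    rw [h1, hR, h5, h6, C_pow]
    ring

theorem ev_C (t : ℂ) (F : MvPolynomial (Fin 2) ℂ) :
    map (Polynomial.evalRingHom t) (map Polynomial.C F) = F := by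
  rw [map_map]
  have : (Polynomial.evalRingHom t).comp Polynomial.C = RingHom.id ℂ := by
    ext; simp
  rw [this, map_id]

theorem lin_comb1 {N : Fin 2 → Fin 2 → ℂ} {q : Fin 2 → ℂ} {P Q : MvPolynomial (Fin 2) ℂ}
    {a1 a2 b1 b2 c : ℂ} (hPx : eval q (pderiv 0 P) = c * (a1 * a2 + b1 * b2))
    (hPy : eval q (pderiv 1 P) = c * (a2 ^ 2 + b2 ^ 2))
    (hQx : eval q (pderiv 0 Q) = -c * (a1 ^ 2 + b1 ^ 2))
    (hQy : eval q (pderiv 1 Q) = -c * (a1 * a2 + b1 * b2))
    (n1 : a1 * N 0 0 + a2 * N 1 0 = 1) (n2 : a1 * N 0 1 + a2 * N 1 1 = 0)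
    (n3 : b1 * N 0 0 + b2 * N 1 0 = 0) (n4 : b1 * N 0 1 + b2 * N 1 1 = 1) :
    C (N 1 1) * lin1 N q P - C (N 0 1) * lin1 N q Q = C c * X 1 := by
  have : C (N 1 1) * lin1 N q P - C (N 0 1) * lin1 N q Q =
    C (N 1 1 * (eval q (pderiv 0 P) * N 0 0 + eval q (pderiv 1 P) * N 1 0) -
      N 0 1 * (eval q (pderiv 0 Q) * N 0 0 + eval q (pderiv 1 Q) * N 1 0)) * X 0 +
    C (N 1 1 * (eval q (pderiv 0 P) * N 0 1 + eval q (pderiv 1 P) * N 1 1) -
      N 0 1 * (eval q (pderiv 0 Q) * N 0 1 + eval q (pderiv 1 Q) * N 1 1)) * X 1 := by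
    simp only [lin1, lf, map_sub, map_add, map_mul]; ring
  rw [this, hPx, hPy, hQx, hQy]
  have e1 : N 1 1 * (c * (a1 * a2 + b1 * b2) * N 0 0 + c * (a2 ^ 2 + b2 ^ 2) * N 1 0) -
      N 0 1 * (-c * (a1 ^ 2 + b1 ^ 2) * N 0 0 + -c * (a1 * a2 + b1 * b2) * N 1 0) = 0 := by
    linear_combination (c * (N 1 1 * a2 + N 0 1 * a1)) * n1 +
      (c * (N 1 1 * b2 + N 0 1 * b1)) * n3 + c * n2
  have e2 : N 1 1 * (c * (a1 * a2 + b1 * b2) * N 0 1 + c * (a2 ^ 2 + b2 ^ 2) * N 1 1) -
      N 0 1 * (-c * (a1 ^ 2 + b1 ^ 2) * N 0 1 + -c * (a1 * a2 + b1 * b2) * N 1 1) = c := by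
    linear_combination (c * (N 1 1 * a2 + N 0 1 * a1)) * n2 +
      (c * (N 1 1 * b2 + N 0 1 * b1)) * n4 + c * n4
  rw [e1, e2]; simp

theorem lin_comb2 {N : Fin 2 → Fin 2 → ℂ} {q : Fin 2 → ℂ} {P Q : MvPolynomial (Fin 2) ℂ}
    {a1 a2 b1 b2 c : ℂ} (hPx : eval q (pderiv 0 P) = c * (a1 * a2 + b1 * b2))
    (hPy : eval q (pderiv 1 P) = c * (a2 ^ 2 + b2 ^ 2))
    (hQx : eval q (pderiv 0 Q) = -c * (a1 ^ 2 + b1 ^ 2))
    (hQy : eval q (pderiv 1 Q) = -c * (a1 * a2 + b1 * b2))
    (n1 : a1 * N 0 0 + a2 * N 1 0 = 1) (n2 : a1 * N 0 1 + a2 * N 1 1 = 0)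
    (n3 : b1 * N 0 0 + b2 * N 1 0 = 0) (n4 : b1 * N 0 1 + b2 * N 1 1 = 1) :
    C (N 0 0) * lin1 N q Q - C (N 1 0) * lin1 N q P = -(C c * X 0) := by
  have : C (N 0 0) * lin1 N q Q - C (N 1 0) * lin1 N q P =
    C (N 0 0 * (eval q (pderiv 0 Q) * N 0 0 + eval q (pderiv 1 Q) * N 1 0) -
      N 1 0 * (eval q (pderiv 0 P) * N 0 0 + eval q (pderiv 1 P) * N 1 0)) * X 0 +
    C (N 0 0 * (eval q (pderiv 0 Q) * N 0 1 + eval q (pderiv 1 Q) * N 1 1) -
      N 1 0 * (eval q (pderiv 0 P) * N 0 1 + eval q (pderiv 1 P) * N 1 1)) * X 1 := by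
    simp only [lin1, lf, map_sub, map_add, map_mul]; ring
  rw [this, hPx, hPy, hQx, hQy]
  have e1 : N 0 0 * (-c * (a1 ^ 2 + b1 ^ 2) * N 0 0 + -c * (a1 * a2 + b1 * b2) * N 1 0) -
      N 1 0 * (c * (a1 * a2 + b1 * b2) * N 0 0 + c * (a2 ^ 2 + b2 ^ 2) * N 1 0) = -c := by
    linear_combination (-c * (N 0 0 * a1 + N 1 0 * a2)) * n1 -
      (c * (N 0 0 * b1 + N 1 0 * b2)) * n3 - c * n1
  have e2 : N 0 0 * (-c * (a1 ^ 2 + b1 ^ 2) * N 0 1 + -c * (a1 * a2 + b1 * b2) * N 1 1) -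
      N 1 0 * (c * (a1 * a2 + b1 * b2) * N 0 1 + c * (a2 ^ 2 + b2 ^ 2) * N 1 1) = 0 := by
    linear_combination (-c * (N 0 0 * a1 + N 1 0 * a2)) * n2 -
      (c * (N 0 0 * b1 + N 1 0 * b2)) * n4 - c * n3
  rw [e1, e2]; simp

/-- the blown up family of pullbacks at a center -/
theorem zoom_alg {P Q : MvPolynomial (Fin 2) ℂ} {q : Fin 2 → ℂ} (hq : HasCenterAt P Q q) :
    ∃ (N : Fin 2 → Fin 2 → ℂ) (c : ℂ) (PT QT : MvPolynomial (Fin 2) (Polynomial ℂ)),
      N 0 0 * N 1 1 - N 0 1 * N 1 0 ≠ 0 ∧ c ≠ 0 ∧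
      (∀ t : ℂ, pb1 q (fun i j => t * N i j) P Q =
        C (t ^ 2) * map (Polynomial.evalRingHom t) PT) ∧
      (∀ t : ℂ, pb2 q (fun i j => t * N i j) P Q =
        C (t ^ 2) * map (Polynomial.evalRingHom t) QT) ∧
      map (Polynomial.evalRingHom 0) PT = C c * X 1 ∧
      map (Polynomial.evalRingHom 0) QT = -(C c * X 0) := by
  obtain ⟨a1, a2, b1, b2, c, hδ, hc, hPx, hPy, hQx, hQy⟩ := center_alg hq
  set N : Fin 2 → Fin 2 → ℂ := ![![b2 / (a1 * b2 - a2 * b1), -a2 / (a1 * b2 - a2 * b1)],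
    ![-b1 / (a1 * b2 - a2 * b1), a1 / (a1 * b2 - a2 * b1)]] with hN
  have n1 : a1 * N 0 0 + a2 * N 1 0 = 1 := by
    have : a1 * N 0 0 + a2 * N 1 0 = (a1 * b2 - a2 * b1) / (a1 * b2 - a2 * b1) := by
      simp [hN]; ring
    rw [this, div_self hδ]
  have n2 : a1 * N 0 1 + a2 * N 1 1 = 0 := by simp [hN]; ring
  have n3 : b1 * N 0 0 + b2 * N 1 0 = 0 := by simp [hN]; ring
  have n4 : b1 * N 0 1 + b2 * N 1 1 = 1 := by
    have : b1 * N 0 1 + b2 * N 1 1 = (a1 * b2 - a2 * b1) / (a1 * b2 - a2 * b1) := by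
      simp [hN]; ring
    rw [this, div_self hδ]
  clear_value N
  have nδ : N 0 0 * N 1 1 - N 0 1 * N 1 0 ≠ 0 := by
    intro h0
    have : (a1 * b2 - a2 * b1) * (N 0 0 * N 1 1 - N 0 1 * N 1 0) = 1 := by
      linear_combination (b1 * N 0 1 + b2 * N 1 1) * n1 + n4 -
        (a1 * N 0 1 + a2 * N 1 1) * n3
    rw [h0, mul_zero] at this
    exact zero_ne_one this
  obtain ⟨RP, hRP⟩ := taylor N q P
  obtain ⟨RQ, hRQ⟩ := taylor N q Q
  rw [hq.1, map_zero, map_zero, zero_add] at hRP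
  rw [hq.2.1, map_zero, map_zero, zero_add] at hRQ
  have l1 := lin_comb1 hPx hPy hQx hQy n1 n2 n3 n4
  have l2 := lin_comb2 hPx hPy hQx hQy n1 n2 n3 n4
  have hpb1 : pb1 (fun i => Polynomial.C (q i)) (fun i j => Polynomial.X * Polynomial.C (N i j))
      (map Polynomial.C P) (map Polynomial.C Q) = C (Polynomial.X ^ 2) *
      (map Polynomial.C (C c * X 1) +
        C Polynomial.X * (C (Polynomial.C (N 1 1)) * RP - C (Polynomial.C (N 0 1)) * RQ)) := by
    have hl1 : map Polynomial.C (C c * X 1) = C (Polynomial.C (N 1 1)) *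
        map Polynomial.C (lin1 N q P) - C (Polynomial.C (N 0 1)) *
        map Polynomial.C (lin1 N q Q) := by
      rw [← l1, map_sub, map_mul, map_mul, MvPolynomial.map_C, MvPolynomial.map_C]
    rw [pb1, hRP, hRQ, hl1, C_pow, C_mul, C_mul]
    ring
  have hpb2 : pb2 (fun i => Polynomial.C (q i)) (fun i j => Polynomial.X * Polynomial.C (N i j))
      (map Polynomial.C P) (map Polynomial.C Q) = C (Polynomial.X ^ 2) *
      (map Polynomial.C (-(C c * X 0)) +
        C Polynomial.X * (C (Polynomial.C (N 0 0)) * RQ - C (Polynomial.C (N 1 0)) * RP)) := by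
    have hl2 : map Polynomial.C (-(C c * X 0)) = C (Polynomial.C (N 0 0)) *
        map Polynomial.C (lin1 N q Q) - C (Polynomial.C (N 1 0)) *
        map Polynomial.C (lin1 N q P) := by
      rw [← l2, map_sub, map_mul, map_mul, MvPolynomial.map_C, MvPolynomial.map_C]
    rw [pb2, hRP, hRQ, hl2, C_pow, C_mul, C_mul]
    ring
  have epp : ∀ t : ℂ, (fun i => (Polynomial.evalRingHom t) (Polynomial.C (q i))) = q := by
    intro t; funext i; simp
  have emm : ∀ t : ℂ, (fun i j => (Polynomial.evalRingHom t)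
      (Polynomial.X * Polynomial.C (N i j))) = fun i j => t * N i j := by
    intro t; funext i j; simp; ring
  have ex2 : ∀ t : ℂ, (Polynomial.evalRingHom t) (Polynomial.X ^ 2) = t ^ 2 := by
    intro t; simp
  refine ⟨N, c, map Polynomial.C (C c * X 1) +
      C Polynomial.X * (C (Polynomial.C (N 1 1)) * RP - C (Polynomial.C (N 0 1)) * RQ),
    map Polynomial.C (-(C c * X 0)) +
      C Polynomial.X * (C (Polynomial.C (N 0 0)) * RQ - C (Polynomial.C (N 1 0)) * RP),
    nδ, hc, fun t => ?_, fun t => ?_, ?_, ?_⟩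
  · have := congrArg (map (Polynomial.evalRingHom t)) hpb1
    rw [map_pb1, ev_C, ev_C, epp, emm, map_mul, MvPolynomial.map_C, ex2] at this
    exact this
  · have := congrArg (map (Polynomial.evalRingHom t)) hpb2
    rw [map_pb2, ev_C, ev_C, epp, emm, map_mul, MvPolynomial.map_C, ex2] at this
    exact this
  · rw [map_add, ev_C, map_mul, MvPolynomial.map_C, Polynomial.coe_evalRingHom,
      Polynomial.eval_X, C_0, zero_mul, add_zero]
  · rw [map_add, ev_C, map_mul, MvPolynomial.map_C, Polynomial.coe_evalRingHom,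
      Polynomial.eval_X, C_0, zero_mul, add_zero]

theorem comp_closed {d : ℕ} {X' : Set (ℙ ℂ (Frm d))}
    (hX : Maximal (fun Z => IsIrreducible Z ∧ Z ⊆ closure (centers d)) X') : IsClosed X' := by
  have hirr : IsIrreducible (closure X') := hX.prop.1.closure
  have hsub : closure X' ⊆ closure (centers d) := closure_minimal hX.prop.2 isClosed_closure
  have := hX.le_of_ge ⟨hirr, hsub⟩ subset_closure
  exact closure_subset_iff_isClosed.1 this

theorem enc_eval {d : ℕ} (PT QT : MvPolynomial (Fin 2) (Polynomial ℂ)) (t : ℂ) :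
    (fun i => (enc d PT QT i).eval t) =
      enc d (map (Polynomial.evalRingHom t) PT) (map (Polynomial.evalRingHom t) QT) := by
  funext ⟨i, e⟩
  by_cases hi : i = 0
  · simp only [enc, hi, if_true, coeff_map]; rfl
  · simp only [enc, hi, if_false, coeff_map]; rfl

theorem enc_smul {d : ℕ} (P Q : MvPolynomial (Fin 2) ℂ) (a : ℂ) :
    enc d (C a * P) (C a * Q) = a • enc d P Q := by
  funext ⟨i, e⟩
  by_cases hi : i = 0
  · simp only [enc, hi, if_true, coeff_C_mul, Pi.smul_apply, smul_eq_mul]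
  · simp only [enc, hi, if_false, coeff_C_mul, Pi.smul_apply, smul_eq_mul]

/-- a component which contains the class of a form with a center contains the class of a multiple
of `x dx + y dy` -/
theorem zoom {d : ℕ} {X' : Set (ℙ ℂ (Frm d))} (hd : 1 ≤ d)
    (hX : Maximal (fun Z => IsIrreducible Z ∧ Z ⊆ closure (centers d)) X')
    (w : Frm d) (hw : w ≠ 0) (hwX : Projectivization.mk ℂ w hw ∈ X') (q : Fin 2 → ℂ)
    (hq : HasCenterAt (fP w) (fQ w) q) :
    ∃ (w0 : Frm d) (hw0 : w0 ≠ 0) (c : ℂ), c ≠ 0 ∧ fP w0 = C c * X 1 ∧ fQ w0 = -(C c * X 0) ∧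
      Projectivization.mk ℂ w0 hw0 ∈ X' := by
  obtain ⟨N, c, PT, QT, nδ, hc, ev1, ev2, z1, z2⟩ := zoom_alg hq
  have hpath : ∀ t ∈ ({0}ᶜ : Set ℂ), ∃ h : (fun i => (enc d PT QT i).eval t) ≠ 0,
      Projectivization.mk ℂ _ h ∈ X' := by
    intro t ht
    have ht : t ≠ 0 := ht
    obtain ⟨L, hL⟩ := exists_pb d q (fun i j => t * N i j)
    have hδt : t * N 0 0 * (t * N 1 1) - t * N 0 1 * (t * N 1 0) ≠ 0 := by
      have : t ^ 2 * (N 0 0 * N 1 1 - N 0 1 * N 1 0) ≠ 0 := mul_ne_zero (pow_ne_zero 2 ht) nδ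
      convert this using 1
      ring
    have hinj := isPb_inj hL hδt
    have hLw : L w ≠ 0 := by
      intro h0
      apply hw
      apply hinj
      rw [h0, map_zero]
    have hmem := comp_affine hX q (fun i j => t * N i j) hδt w hw hwX (L w) hLw (hL w).1 (hL w).2
    have heq : L w = (t ^ 2) • (fun i => (enc d PT QT i).eval t) := by
      rw [enc_eval, ← enc_fPQ (L w), (hL w).1, (hL w).2, ev1, ev2, enc_smul]
    have hne : (fun i => (enc d PT QT i).eval t) ≠ 0 := by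
      intro h0
      rw [h0, smul_zero] at heq
      exact hLw heq
    refine ⟨hne, ?_⟩
    have : Projectivization.mk ℂ (L w) hLw = Projectivization.mk ℂ _ hne := by
      rw [Projectivization.mk_eq_mk_iff']
      exact ⟨t ^ 2, heq.symm⟩
    rw [← this]; exact hmem
  have hinf : ({0}ᶜ : Set ℂ).Infinite := (Set.finite_singleton (0 : ℂ)).infinite_compl
  have h0ev : (fun i => (enc d PT QT i).eval 0) = enc d (C c * X 1) (-(C c * X 0)) := by
    rw [enc_eval, z1, z2]
  have d1 : (C c * X 1 : MvPolynomial (Fin 2) ℂ).totalDegree ≤ d :=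
    ((isHomogeneous_C_mul_X c 1).totalDegree_le).trans hd
  have d2 : (-(C c * X 0) : MvPolynomial (Fin 2) ℂ).totalDegree ≤ d := by
    rw [totalDegree_neg]
    exact ((isHomogeneous_C_mul_X c 0).totalDegree_le).trans hd
  have hne0 : (fun i => (enc d PT QT i).eval 0) ≠ 0 := by
    intro h0
    rw [h0ev] at h0
    have h1 := congrArg fP h0
    rw [fP_enc _ _ d1] at h1
    have h2 : fP (0 : Frm d) = 0 := by simp [fP, poly]
    rw [h2] at h1
    rcases mul_eq_zero.1 h1 with h3 | h3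
    · exact hc (by simpa using h3)
    · exact X_ne_zero _ h3
  refine ⟨_, hne0, c, hc, ?_, ?_, path_closed (comp_closed hX) (enc d PT QT) _ hinf hpath 0 hne0⟩
  · rw [h0ev, fP_enc _ _ d1]
  · rw [h0ev, fQ_enc _ _ d2]

end Pool.Agent.Y215.CC
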