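import Mathlib
import Pool.Agent.Y215.CC.Zoom

set_option autoImplicit false

/-!
# Every irreducible component contains all `d f` with `deg f ≤ 2`
-/

namespace Pool.Agent.Y215.CC

open MvPolynomial
open scoped LinearAlgebra.Projectivization

/-- the classes of the forms `d f`, `f` a polynomial of degree at most `n`, among the classes of
forms with coefficients of degree at most `d` -/
def exactForms (d n : ℕ) : Set (ℙ ℂ (Frm d)) :=
  {x | ∃ (w : Frm d) (hw : w ≠ 0), x = Projectivization.mk ℂ w hw ∧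
    ∃ f : MvPolynomial (Fin 2) ℂ, f.totalDegree ≤ n ∧ fP w = pderiv 1 f ∧ fQ w = -pderiv 0 f}

theorem fP_smul {d : ℕ} (a : ℂ) (w : Frm d) : fP (a • w) = C a * fP w := by
  simp [fP, poly, Finset.mul_sum, mul_assoc]

theorem fQ_smul {d : ℕ} (a : ℂ) (w : Frm d) : fQ (a • w) = C a * fQ w := by
  simp [fQ, poly, Finset.mul_sum, mul_assoc]

theorem fP_add {d : ℕ} (w w' : Frm d) : fP (w + w') = fP w + fP w' := by
  simp [fP, poly, add_mul, Finset.sum_add_distrib]

theorem fQ_add {d : ℕ} (w w' : Frm d) : fQ (w + w') = fQ w + fQ w' := by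
  simp [fQ, poly, add_mul, Finset.sum_add_distrib]

/-- nondegenerate quadratic polynomials -/
theorem quad_mem {d : ℕ} {X' : Set (ℙ ℂ (Frm d))}
    (hX : Maximal (fun Z => IsIrreducible Z ∧ Z ⊆ closure (centers d)) X')
    (w0 : Frm d) (hw0 : w0 ≠ 0) (c : ℂ) (hc : c ≠ 0) (h1 : fP w0 = C c * X 1)
    (h2 : fQ w0 = -(C c * X 0)) (hmem : Projectivization.mk ℂ w0 hw0 ∈ X')
    (A B G E D : ℂ) (hA : A ≠ 0) (hD : A * D - B ^ 2 ≠ 0) (w : Frm d) (hw : w ≠ 0)
    (h3 : fP w = C G + C (2 * B) * X 0 + C (2 * D) * X 1)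
    (h4 : fQ w = -(C E + C (2 * A) * X 0 + C (2 * B) * X 1)) :
    Projectivization.mk ℂ w hw ∈ X' := by
  obtain ⟨s, hs⟩ := IsAlgClosed.exists_pow_nat_eq A (n := 2) (by norm_num)
  obtain ⟨r, hr⟩ := IsAlgClosed.exists_pow_nat_eq ((A * D - B ^ 2) / A) (n := 2) (by norm_num)
  have hs0 : s ≠ 0 := by rintro rfl; apply hA; rw [← hs]; ring
  have hr0 : r ≠ 0 := by
    rintro rfl
    apply div_ne_zero hD hA
    rw [← hr]; ring
  have hrr : A * r ^ 2 = A * D - B ^ 2 := by rw [hr]; field_simp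
  -- the affine map
  set m : Fin 2 → Fin 2 → ℂ := ![![s, B / s], ![0, r]] with hm
  set p : Fin 2 → ℂ := ![E / (2 * s), (G - B * E / A) / (2 * r)] with hp
  have m00 : m 0 0 = s := by simp [hm]
  have m01 : m 0 1 = B / s := by simp [hm]
  have m10 : m 1 0 = 0 := by simp [hm]
  have m11 : m 1 1 = r := by simp [hm]
  have p0 : p 0 = E / (2 * s) := by simp [hp]
  have p1 : p 1 = (G - B * E / A) / (2 * r) := by simp [hp]
  have hδ : m 0 0 * m 1 1 - m 0 1 * m 1 0 ≠ 0 := by
    rw [m00, m01, m10, m11, mul_zero, sub_zero]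
    exact mul_ne_zero hs0 hr0
  have hc2 : c / 2 ≠ 0 := div_ne_zero hc two_ne_zero
  have hw' : (c / 2) • w ≠ 0 := smul_ne_zero hc2 hw
  have sbX : ∀ j, sb p m (X j) = C (p j) + C (m j 0) * X 0 + C (m j 1) * X 1 := by
    intro j; rw [sb, bind₁_X_right]; rfl
  have sbC : sb p m (C c) = C c := by rw [sb, bind₁_C_right]
  have e1 : sb p m (C c * X 1) = C c * (C (p 1) + C (m 1 0) * X 0 + C (m 1 1) * X 1) := by
    have : sb p m (C c * X 1) = sb p m (C c) * sb p m (X 1) := by rw [sb, map_mul]; rfl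
    rw [this, sbC, sbX]
  have e2 : sb p m (-(C c * X 0)) = -(C c * (C (p 0) + C (m 0 0) * X 0 + C (m 0 1) * X 1)) := by
    have : sb p m (-(C c * X 0)) = -(sb p m (C c) * sb p m (X 0)) := by
      rw [sb, map_neg, map_mul]; rfl
    rw [this, sbC, sbX]
  have q1 : pb1 p m (fP w0) (fQ w0) = fP ((c / 2) • w) := by
    rw [fP_smul, h1, h2, h3, pb1, e1, e2]
    have : C (m 1 1) * (C c * (C (p 1) + C (m 1 0) * X 0 + C (m 1 1) * X 1)) -
        C (m 0 1) * -(C c * (C (p 0) + C (m 0 0) * X 0 + C (m 0 1) * X 1)) =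
      C (c * (m 1 1 * p 1 + m 0 1 * p 0)) + C (c * (m 1 1 * m 1 0 + m 0 1 * m 0 0)) * X 0 +
        C (c * (m 1 1 ^ 2 + m 0 1 ^ 2)) * (X 1 : MvPolynomial (Fin 2) ℂ) := by
      simp only [map_add, map_mul, map_pow]; ring
    rw [this]
    have k1 : c * (m 1 1 * p 1 + m 0 1 * p 0) = c / 2 * G := by
      rw [m11, m01, p0, p1, ← hs]; field_simp; ring
    have k2 : c * (m 1 1 * m 1 0 + m 0 1 * m 0 0) = c / 2 * (2 * B) := by
      rw [m11, m01, m10, m00]; field_simp; ring
    have k3 : c * (m 1 1 ^ 2 + m 0 1 ^ 2) = c / 2 * (2 * D) := by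
      rw [m11, m01]
      have : r ^ 2 + (B / s) ^ 2 = D := by
        rw [div_pow, hs]
        field_simp
        linear_combination hrr
      rw [this]; ring
    rw [k1, k2, k3]
    simp only [map_mul]; ring
  have q2 : pb2 p m (fP w0) (fQ w0) = fQ ((c / 2) • w) := by
    rw [fQ_smul, h1, h2, h4, pb2, e1, e2]
    have : C (m 0 0) * -(C c * (C (p 0) + C (m 0 0) * X 0 + C (m 0 1) * X 1)) -
        C (m 1 0) * (C c * (C (p 1) + C (m 1 0) * X 0 + C (m 1 1) * X 1)) =
      -(C (c * (m 0 0 * p 0 + m 1 0 * p 1)) + C (c * (m 0 0 ^ 2 + m 1 0 ^ 2)) * X 0 +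
        C (c * (m 0 0 * m 0 1 + m 1 0 * m 1 1)) * (X 1 : MvPolynomial (Fin 2) ℂ)) := by
      simp only [map_add, map_mul, map_pow]; ring
    rw [this]
    have k1 : c * (m 0 0 * p 0 + m 1 0 * p 1) = c / 2 * E := by
      rw [m00, m10, p0]; field_simp; ring
    have k2 : c * (m 0 0 ^ 2 + m 1 0 ^ 2) = c / 2 * (2 * A) := by
      rw [m00, m10, hs]; ring
    have k3 : c * (m 0 0 * m 0 1 + m 1 0 * m 1 1) = c / 2 * (2 * B) := by
      rw [m00, m01, m10]; field_simp; ring
    rw [k1, k2, k3]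
    simp only [map_mul]; ring
  have key := comp_affine hX p m hδ w0 hw0 hmem ((c / 2) • w) hw' q1.symm q2.symm
  have : Projectivization.mk ℂ ((c / 2) • w) hw' = Projectivization.mk ℂ w hw := by
    rw [Projectivization.mk_eq_mk_iff']
    exact ⟨c / 2, rfl⟩
  rw [← this]; exact key

theorem deg_one (F : MvPolynomial (Fin 2) ℂ) (h : ∀ m : Fin 2 →₀ ℕ, 2 ≤ m 0 + m 1 → coeff m F = 0) :
    F = C (coeff 0 F) + C (coeff (Finsupp.single 0 1) F) * X 0 +
      C (coeff (Finsupp.single 1 1) F) * X 1 := by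
  classical
  ext m
  rw [coeff_add, coeff_add, coeff_C, C_mul_X_eq_monomial, C_mul_X_eq_monomial, coeff_monomial,
    coeff_monomial]
  by_cases h2 : 2 ≤ m 0 + m 1
  · rw [h m h2]
    have a0 : ¬ (0 : Fin 2 →₀ ℕ) = m := by rintro rfl; simp at h2
    have a1 : ¬ Finsupp.single 0 1 = m := by rintro rfl; simp at h2
    have a2 : ¬ Finsupp.single 1 1 = m := by rintro rfl; simp at h2
    rw [if_neg a0, if_neg a1, if_neg a2]; simp
  · have h3 : (m 0 = 0 ∧ m 1 = 0) ∨ (m 0 = 1 ∧ m 1 = 0) ∨ (m 0 = 0 ∧ m 1 = 1) := by omega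
    have s01 : (Finsupp.single 0 1 : Fin 2 →₀ ℕ) ≠ Finsupp.single 1 1 := by
      intro h; have := congrArg (fun g => g 0) h; simp at this
    rcases h3 with ⟨h0, h1⟩ | ⟨h0, h1⟩ | ⟨h0, h1⟩
    · have : m = 0 := by ext i; fin_cases i <;> simp [h0, h1]
      subst this; simp
    · have : m = Finsupp.single 0 1 := by ext i; fin_cases i <;> simp [h0, h1]
      subst this
      rw [if_neg (fun h => by have := congrArg (fun g => g 0) h; simp at this), if_pos rfl,
        if_neg s01.symm]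
      simp
    · have : m = Finsupp.single 1 1 := by ext i; fin_cases i <;> simp [h0, h1]
      subst this
      rw [if_neg (fun h => by have := congrArg (fun g => g 1) h; simp at this), if_pos rfl,
        if_neg s01]
      simp

theorem coeff_big (f : MvPolynomial (Fin 2) ℂ) (hf : f.totalDegree ≤ 2) (i : Fin 2)
    (m : Fin 2 →₀ ℕ) (hm : 2 ≤ m 0 + m 1) : coeff m (pderiv i f) = 0 := by
  rw [coeff_pderiv]
  have : coeff (m + Finsupp.single i 1) f = 0 := by
    apply coeff_eq_zero_of_totalDegree_lt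
    have := deg_mon (m + Finsupp.single i 1)
    rw [Finsupp.sum] at this
    rw [this]
    fin_cases i <;> simp <;> omega
  rw [this]; simp

/-- every irreducible component contains the classes of all `d f` with `deg f ≤ 2` -/
theorem exact_two {d : ℕ} {X' : Set (ℙ ℂ (Frm d))} (hd : 1 ≤ d)
    (hX : Maximal (fun Z => IsIrreducible Z ∧ Z ⊆ closure (centers d)) X') :
    exactForms d 2 ⊆ X' := by
  obtain ⟨x, hxX, w1, hw1, rfl, -, -, q, hq⟩ := comp_meets hX
  obtain ⟨w0, hw0, c, hc, h1, h2, hmem⟩ := zoom hd hX w1 hw1 hxX q hq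
  rintro x ⟨w, hw, rfl, f, hf, hP, hQ⟩
  have hcl := comp_closed hX
  set A2 := coeff (Finsupp.single 0 1) (pderiv 0 f) with hA2
  set B2 := coeff (Finsupp.single 1 1) (pderiv 0 f) with hB2
  set D2 := coeff (Finsupp.single 1 1) (pderiv 1 f) with hD2
  set E := coeff 0 (pderiv 0 f) with hE
  set G := coeff 0 (pderiv 1 f) with hG
  have hB2' : coeff (Finsupp.single 0 1) (pderiv 1 f) = B2 := by
    rw [hB2, coeff_pderiv, coeff_pderiv, add_comm (Finsupp.single 0 1 : Fin 2 →₀ ℕ)]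
    simp
  have f0 : pderiv 0 f = C E + C A2 * X 0 + C B2 * X 1 := deg_one _ (coeff_big f hf 0)
  have f1 : pderiv 1 f = C G + C B2 * X 0 + C D2 * X 1 := by
    conv_lhs => rw [deg_one _ (coeff_big f hf 1)]
    rw [hB2']
  -- the path
  have d1 : (C 2 * X 1 : MvPolynomial (Fin 2) ℂ).totalDegree ≤ d :=
    ((isHomogeneous_C_mul_X 2 1).totalDegree_le).trans hd
  have d2 : (-(C 2 * X 0) : MvPolynomial (Fin 2) ℂ).totalDegree ≤ d := by
    rw [totalDegree_neg]
    exact ((isHomogeneous_C_mul_X 2 0).totalDegree_le).trans hd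
  set u : Frm d := enc d (C 2 * X 1) (-(C 2 * X 0)) with hu
  have hPu : fP u = C 2 * X 1 := fP_enc _ _ d1
  have hQu : fQ u = -(C 2 * X 0) := fQ_enc _ _ d2
  set cc : Fin 2 × Ex d → Polynomial ℂ := fun i => Polynomial.C (w i) +
    Polynomial.X * Polynomial.C (u i) with hcc
  have hev : ∀ t, (fun i => (cc i).eval t) = w + t • u := by
    intro t; funext i; simp [hcc]; ring
  have hPt : ∀ t : ℂ, fP (w + t • u) = C G + C (2 * (B2 / 2)) * X 0 +
      C (2 * (D2 / 2 + t)) * X 1 := by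
    intro t
    rw [fP_add, fP_smul, hPu, hP, f1]
    have k1 : 2 * (B2 / 2) = B2 := by ring
    have k2 : 2 * (D2 / 2 + t) = D2 + t * 2 := by ring
    rw [k1, k2, map_add, map_mul]; ring
  have hQt : ∀ t : ℂ, fQ (w + t • u) = -(C E + C (2 * (A2 / 2 + t)) * X 0 +
      C (2 * (B2 / 2)) * X 1) := by
    intro t
    rw [fQ_add, fQ_smul, hQu, hQ, f0]
    have k1 : 2 * (B2 / 2) = B2 := by ring
    have k2 : 2 * (A2 / 2 + t) = A2 + t * 2 := by ring
    rw [k1, k2, map_add, map_mul]; ring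
  set pol : Polynomial ℂ := (Polynomial.X + Polynomial.C (A2 / 2)) *
    ((Polynomial.X + Polynomial.C (A2 / 2)) * (Polynomial.X + Polynomial.C (D2 / 2)) -
      Polynomial.C ((B2 / 2) ^ 2)) with hpol
  have hpol0 : pol ≠ 0 := by
    have m1 : (Polynomial.X + Polynomial.C (A2 / 2)).Monic := Polynomial.monic_X_add_C _
    have m2 : (Polynomial.X + Polynomial.C (D2 / 2)).Monic := Polynomial.monic_X_add_C _
    have m3 : ((Polynomial.X + Polynomial.C (A2 / 2)) * (Polynomial.X + Polynomial.C (D2 / 2)) -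
      Polynomial.C ((B2 / 2) ^ 2)).Monic := by
      apply (m1.mul m2).sub_of_left
      rw [Polynomial.degree_mul, Polynomial.degree_X_add_C, Polynomial.degree_X_add_C]
      refine lt_of_le_of_lt Polynomial.degree_C_le ?_
      norm_num
    exact (m1.mul m3).ne_zero
  have hT : {t : ℂ | pol.eval t ≠ 0}.Infinite := by
    have hfin : {t : ℂ | pol.IsRoot t}.Finite := Polynomial.finite_setOfPred_isRoot hpol0
    have := hfin.infinite_compl
    refine this.mono fun t ht => ?_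
    intro h0
    exact ht h0
  have hgood : ∀ t ∈ {t : ℂ | pol.eval t ≠ 0}, ∃ h : (fun i => (cc i).eval t) ≠ 0,
      Projectivization.mk ℂ _ h ∈ X' := by
    intro t ht
    have ht' : pol.eval t ≠ 0 := ht
    rw [hpol, Polynomial.eval_mul] at ht'
    have t1 : A2 / 2 + t ≠ 0 := by
      have := left_ne_zero_of_mul ht'
      simpa [add_comm] using this
    have t2 : (A2 / 2 + t) * (D2 / 2 + t) - (B2 / 2) ^ 2 ≠ 0 := by
      have := right_ne_zero_of_mul ht'
      simpa [add_comm] using this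
    have hne : w + t • u ≠ 0 := by
      intro h0
      have h1 := hQt t
      rw [h0] at h1
      have h2 : fQ (0 : Frm d) = 0 := by simp [fQ, poly]
      rw [h2] at h1
      have h3 := congrArg (eval ![1, 0]) h1
      have h4 := congrArg (eval ![0, 0]) h1
      simp at h3 h4
      apply t1
      linear_combination (1 / 2 : ℂ) * h3 - (1 / 2 : ℂ) * h4
    have hne' : (fun i => (cc i).eval t) ≠ 0 := by rw [hev]; exact hne
    refine ⟨hne', ?_⟩
    have := quad_mem hX w0 hw0 c hc h1 h2 hmem (A2 / 2 + t) (B2 / 2) G E (D2 / 2 + t) t1 t2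
      (w + t • u) hne (hPt t) (hQt t)
    convert this using 2
    exact hev t
  have h0 : (fun i => (cc i).eval 0) = w := by rw [hev]; simp
  have h0ne : (fun i => (cc i).eval 0) ≠ 0 := by rw [h0]; exact hw
  have := path_closed hcl cc _ hT hgood 0 h0ne
  convert this using 2
  exact h0.symm

theorem exact_mono (d : ℕ) {m n : ℕ} (h : m ≤ n) : exactForms d m ⊆ exactForms d n := by
  rintro x ⟨w, hw, rfl, f, hf, hP, hQ⟩
  exact ⟨w, hw, rfl, f, hf.trans h, hP, hQ⟩

theorem exact_nonempty {d : ℕ} (hd : 1 ≤ d) : (exactForms d 2).Nonempty := by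
  have d1 : (C 2 * X 1 : MvPolynomial (Fin 2) ℂ).totalDegree ≤ d :=
    ((isHomogeneous_C_mul_X 2 1).totalDegree_le).trans hd
  have d2 : (-(C 2 * X 0) : MvPolynomial (Fin 2) ℂ).totalDegree ≤ d := by
    rw [totalDegree_neg]
    exact ((isHomogeneous_C_mul_X 2 0).totalDegree_le).trans hd
  have hne : enc d (C 2 * X 1 : MvPolynomial (Fin 2) ℂ) (-(C 2 * X 0)) ≠ 0 := by
    intro h0
    have h1 := congrArg fP h0
    rw [fP_enc _ _ d1] at h1
    have h2 : fP (0 : Frm d) = 0 := by simp [fP, poly]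
    rw [h2] at h1
    have h3 := congrArg (eval ![0, 1]) h1
    simp at h3
  refine ⟨_, _, hne, rfl, X 0 ^ 2 + X 1 ^ 2, ?_, ?_, ?_⟩
  · refine (totalDegree_add _ _).trans (max_le ?_ ?_) <;> rw [totalDegree_X_pow]
  · rw [fP_enc _ _ d1, map_add, pderiv_pow, pderiv_pow, pderiv_X_self,
      pderiv_X_of_ne (by decide : (0 : Fin 2) ≠ 1)]
    have : (C 2 : MvPolynomial (Fin 2) ℂ) = 2 := map_ofNat C 2
    rw [this]
    simp
  · rw [fQ_enc _ _ d2, map_add, pderiv_pow, pderiv_pow, pderiv_X_self,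
      pderiv_X_of_ne (by decide : (1 : Fin 2) ≠ 0)]
    have : (C 2 : MvPolynomial (Fin 2) ℂ) = 2 := map_ofNat C 2
    rw [this]
    simp

end Pool.Agent.Y215.CC
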