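import Mathlib
import Pool.Agent.Y215.CC.Fin

/-!
# Degenerate affine maps, restriction to lines
-/

set_option autoImplicit false

namespace Pool.Agent.Y215.CC

open MvPolynomial
open scoped LinearAlgebra.Projectivization

/-- components are stable under pullback by all affine maps, invertible or not -/
theorem comp_affine_all {d : ℕ} {X' : Set (ℙ ℂ (Frm d))}
    (hX : Maximal (fun Z => IsIrreducible Z ∧ Z ⊆ closure (centers d)) X')
    (p : Fin 2 → ℂ) (m : Fin 2 → Fin 2 → ℂ)
    (w : Frm d) (hw : w ≠ 0) (hwX : Projectivization.mk ℂ w hw ∈ X')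
    (w' : Frm d) (hw' : w' ≠ 0) (h1 : fP w' = pb1 p m (fP w) (fQ w))
    (h2 : fQ w' = pb2 p m (fP w) (fQ w)) : Projectivization.mk ℂ w' hw' ∈ X' := by
  classical
  set pp : Fin 2 → Polynomial ℂ := fun i => Polynomial.C (p i) with hpp
  set mm : Fin 2 → Fin 2 → Polynomial ℂ := fun i j =>
    Polynomial.C (m i j) + Polynomial.X * (if i = j then 1 else 0) with hmm
  set PT := pb1 pp mm (map Polynomial.C (fP w)) (map Polynomial.C (fQ w)) with hPT
  set QT := pb2 pp mm (map Polynomial.C (fP w)) (map Polynomial.C (fQ w)) with hQT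
  have hpe : ∀ (t : ℂ), (fun i => (Polynomial.evalRingHom t) (pp i)) = p := by
    intro t; funext i; simp [hpp]
  have hme : ∀ (t : ℂ), (fun i j => (Polynomial.evalRingHom t) (mm i j)) =
      fun i j => m i j + t * (if i = j then 1 else 0) := by
    intro t
    funext i j
    by_cases hij : i = j <;> simp [hmm, hij]
  have e1 : ∀ t, map (Polynomial.evalRingHom t) PT =
      pb1 p (fun i j => m i j + t * (if i = j then 1 else 0)) (fP w) (fQ w) := by
    intro t
    rw [hPT, map_pb1, ev_C, ev_C, hpe, hme]
  have e2 : ∀ t, map (Polynomial.evalRingHom t) QT =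
      pb2 p (fun i j => m i j + t * (if i = j then 1 else 0)) (fP w) (fQ w) := by
    intro t
    rw [hQT, map_pb2, ev_C, ev_C, hpe, hme]
  set D : Polynomial ℂ := (Polynomial.C (m 0 0) + Polynomial.X) *
    (Polynomial.C (m 1 1) + Polynomial.X) - Polynomial.C (m 0 1 * m 1 0) with hD
  have hD0 : D ≠ 0 := by
    intro h0
    have a1 : D.eval 1 = 0 := by rw [h0, Polynomial.eval_zero]
    have a2 : D.eval (-1) = 0 := by rw [h0, Polynomial.eval_zero]
    have a3 : D.eval 0 = 0 := by rw [h0, Polynomial.eval_zero]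
    simp [hD] at a1 a2 a3
    have : (2 : ℂ) = 0 := by linear_combination a1 + a2 - 2 * a3
    exact two_ne_zero this
  have hT : {t : ℂ | D.eval t ≠ 0}.Infinite := by
    have hfin : {t : ℂ | D.IsRoot t}.Finite := Polynomial.finite_setOfPred_isRoot hD0
    refine hfin.infinite_compl.mono fun t ht => ?_
    intro h0
    exact ht h0
  have hgood : ∀ t ∈ {t : ℂ | D.eval t ≠ 0}, ∃ h : (fun i => (enc d PT QT i).eval t) ≠ 0,
      Projectivization.mk ℂ _ h ∈ X' := by
    intro t ht
    have ht' : D.eval t ≠ 0 := ht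
    have hδ : (m 0 0 + t * (if (0 : Fin 2) = 0 then 1 else 0)) *
        (m 1 1 + t * (if (1 : Fin 2) = 1 then 1 else 0)) -
        (m 0 1 + t * (if (0 : Fin 2) = 1 then 1 else 0)) *
        (m 1 0 + t * (if (1 : Fin 2) = 0 then 1 else 0)) ≠ 0 := by
      simp [hD] at ht'
      simpa using ht'
    obtain ⟨L, hL⟩ := exists_pb d p (fun i j => m i j + t * (if i = j then 1 else 0))
    have hinj := isPb_inj hL hδ
    have hLw : L w ≠ 0 := by
      intro h0
      apply hw
      apply hinj
      rw [h0, map_zero]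
    have hmem := comp_affine hX p _ hδ w hw hwX (L w) hLw (hL w).1 (hL w).2
    have heq : (fun i => (enc d PT QT i).eval t) = L w := by
      rw [enc_eval, e1, e2, ← enc_fPQ (L w), (hL w).1, (hL w).2]
    have hne : (fun i => (enc d PT QT i).eval t) ≠ 0 := by rw [heq]; exact hLw
    refine ⟨hne, ?_⟩
    convert hmem using 2
  have h0 : (fun i => (enc d PT QT i).eval 0) = w' := by
    have hm0 : (fun i j => m i j + (0 : ℂ) * (if i = j then 1 else 0)) = m := by
      funext i j; simp
    rw [enc_eval, e1, e2, hm0, ← h1, ← h2, enc_fPQ]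
  have hne0 : (fun i => (enc d PT QT i).eval 0) ≠ 0 := by rw [h0]; exact hw'
  have := path_closed (comp_closed hX) (enc d PT QT) _ hT hgood 0 hne0
  convert this using 2
  exact h0.symm

/-- restriction to the vertical line `x = c` -/
noncomputable def rs (c : ℂ) : MvPolynomial (Fin 2) ℂ →ₐ[ℂ] Polynomial ℂ :=
  aeval ![Polynomial.C c, Polynomial.X]

/-- an affine linear polynomial -/
noncomputable def al (p a b : ℂ) : MvPolynomial (Fin 2) ℂ := C p + C a * X 0 + C b * X 1

theorem sb_line (c p a b t : ℂ) (P : MvPolynomial (Fin 2) ℂ) :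
    sb ![c, t * p] ![![0, 0], ![t * a, t * b]] P =
      Polynomial.aeval (C t * al p a b) (rs c P) := by
  have h : (bind₁ (aff ![c, t * p] ![![0, 0], ![t * a, t * b]]) :
      MvPolynomial (Fin 2) ℂ →ₐ[ℂ] MvPolynomial (Fin 2) ℂ) =
      (Polynomial.aeval (C t * al p a b)).comp (rs c) := by
    apply MvPolynomial.algHom_ext
    intro i
    fin_cases i
    · simp [rs, aff, algebraMap_eq]
    · simp [rs, aff, al]
      ring
  exact DFunLike.congr_fun h P

theorem al_surj (p a b : ℂ) (hab : a ≠ 0 ∨ b ≠ 0) (s : ℂ) : ∃ z : Fin 2 → ℂ,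
    eval z (al p a b) = s := by
  rcases hab with h | h
  · refine ⟨![(s - p) / a, 0], ?_⟩
    simp [al]
    field_simp
    ring
  · refine ⟨![0, (s - p) / b], ?_⟩
    simp [al]
    field_simp
    ring

/-- the form `l^n dl` with `l = p + a x + b y` is in a component if the restriction of some member
to a vertical line has degree `n` -/
theorem line_limit {d : ℕ} {X' : Set (ℙ ℂ (Frm d))}
    (hX : Maximal (fun Z => IsIrreducible Z ∧ Z ⊆ closure (centers d)) X')
    (w : Frm d) (hw : w ≠ 0) (hwX : Projectivization.mk ℂ w hw ∈ X') (c : ℂ) (n : ℕ)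
    (hn : n ≤ d) (hc : (rs c (fP w)).coeff n ≠ 0) (hj : ∀ j, n < j → (rs c (fP w)).coeff j = 0)
    (p a b : ℂ) (hab : a ≠ 0 ∨ b ≠ 0) (w' : Frm d) (hw' : w' ≠ 0)
    (h1 : fP w' = C b * al p a b ^ n) (h2 : fQ w' = -(C a * al p a b ^ n)) :
    Projectivization.mk ℂ w' hw' ∈ X' := by
  classical
  set φ := rs c (fP w) with hφ
  set al' : MvPolynomial (Fin 2) (Polynomial ℂ) := map Polynomial.C (al p a b) with hal'
  set S : MvPolynomial (Fin 2) (Polynomial ℂ) :=
    ∑ j ∈ Finset.range (n + 1), C (Polynomial.C (φ.coeff j) * Polynomial.X ^ (n - j)) * al' ^ j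
    with hS
  have hSe : ∀ t : ℂ, map (Polynomial.evalRingHom t) S =
      ∑ j ∈ Finset.range (n + 1), C (φ.coeff j * t ^ (n - j)) * al p a b ^ j := by
    intro t
    rw [hS, map_sum]
    refine Finset.sum_congr rfl fun j _ => ?_
    rw [map_mul, map_pow, hal', ev_C, map_C]
    congr 2
    simp
  set PT : MvPolynomial (Fin 2) (Polynomial ℂ) := C (Polynomial.C b) * S with hPT
  set QT : MvPolynomial (Fin 2) (Polynomial ℂ) := -(C (Polynomial.C a) * S) with hQT
  have hP : ∀ t, map (Polynomial.evalRingHom t) PT = C b * map (Polynomial.evalRingHom t) S := by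
    intro t; rw [hPT, map_mul, map_C]; simp
  have hQ : ∀ t, map (Polynomial.evalRingHom t) QT =
      -(C a * map (Polynomial.evalRingHom t) S) := by
    intro t; rw [hQT, map_neg, map_mul, map_C]; simp
  have hdeg : φ.natDegree ≤ n := by
    rw [Polynomial.natDegree_le_iff_coeff_eq_zero]
    exact hj
  -- the sum
  have hsum : ∀ t : ℂ, t ≠ 0 → map (Polynomial.evalRingHom t) S =
      C (t ^ n) * Polynomial.aeval (C t⁻¹ * al p a b) φ := by
    intro t ht
    rw [hSe, Polynomial.aeval_eq_sum_range' (lt_of_le_of_lt hdeg (Nat.lt_succ_self n)),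
      Finset.mul_sum]
    refine Finset.sum_congr rfl fun j hj => ?_
    have hjn : j ≤ n := by have := Finset.mem_range.1 hj; omega
    rw [smul_eq_C_mul, mul_pow, ← map_pow]
    have : t ^ (n - j) = t ^ n * t⁻¹ ^ j := by
      rw [pow_sub₀ t ht hjn, inv_pow]
    rw [this]
    simp only [map_mul]
    ring
  have hSne : ∀ t : ℂ, map (Polynomial.evalRingHom t) S ≠ 0 := by
    intro t h0
    -- the polynomial in one variable
    set R : Polynomial ℂ := ∑ j ∈ Finset.range (n + 1),
      Polynomial.C (φ.coeff j * t ^ (n - j)) * Polynomial.X ^ j with hR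
    have hRn : R.coeff n = φ.coeff n := by
      rw [hR, Polynomial.finset_sum_coeff, Finset.sum_eq_single n]
      · simp
      · intro j hj hjn
        rw [Polynomial.coeff_C_mul, Polynomial.coeff_X_pow, if_neg (Ne.symm hjn), mul_zero]
      · intro h; exact absurd (Finset.mem_range.2 (Nat.lt_succ_self n)) h
    have hR0 : R ≠ 0 := by
      intro h; rw [h, Polynomial.coeff_zero] at hRn; exact hc hRn.symm
    have hinf : {s : ℂ | R.IsRoot s}.Finite := Polynomial.finite_setOfPred_isRoot hR0
    obtain ⟨s, hs⟩ := hinf.infinite_compl.nonempty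
    obtain ⟨z, hz⟩ := al_surj p a b hab s
    apply hs
    have := congrArg (eval z) h0
    rw [hSe, map_sum, map_zero] at this
    change R.eval s = 0
    rw [hR, Polynomial.eval_finset_sum, ← this]
    refine Finset.sum_congr rfl fun j _ => ?_
    rw [Polynomial.eval_mul, Polynomial.eval_C, Polynomial.eval_pow, Polynomial.eval_X, map_mul,
      eval_C, map_pow, hz]
  have hdal : (al p a b).totalDegree ≤ 1 := by
    have hX1 : ∀ (a : ℂ) (j : Fin 2), (C a * X j : MvPolynomial (Fin 2) ℂ).totalDegree ≤ 1 :=
      fun a j => (isHomogeneous_C_mul_X a j).totalDegree_le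
    rw [al]
    refine (totalDegree_add _ _).trans (max_le ((totalDegree_add _ _).trans (max_le ?_ ?_)) ?_)
    · rw [totalDegree_C]; omega
    · exact hX1 _ _
    · exact hX1 _ _
  have hdS : ∀ t : ℂ, (map (Polynomial.evalRingHom t) S).totalDegree ≤ d := by
    intro t
    rw [hSe]
    refine (totalDegree_finsetSum _ _).trans (Finset.sup_le fun j hj => ?_)
    refine (totalDegree_mul _ _).trans ?_
    rw [totalDegree_C, zero_add]
    refine (totalDegree_pow _ _).trans ?_
    have hjn : j ≤ n := by have := Finset.mem_range.1 hj; omega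
    calc j * (al p a b).totalDegree ≤ j * 1 := Nat.mul_le_mul_left _ hdal
      _ ≤ d := by omega
  have hdP : ∀ t : ℂ, (map (Polynomial.evalRingHom t) PT).totalDegree ≤ d := by
    intro t
    rw [hP]
    refine (totalDegree_mul _ _).trans ?_
    rw [totalDegree_C, zero_add]; exact hdS t
  have hdQ : ∀ t : ℂ, (map (Polynomial.evalRingHom t) QT).totalDegree ≤ d := by
    intro t
    rw [hQ, totalDegree_neg]
    refine (totalDegree_mul _ _).trans ?_
    rw [totalDegree_C, zero_add]; exact hdS t
  have hne : ∀ t : ℂ, (fun i => (enc d PT QT i).eval t) ≠ 0 := by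
    intro t h0
    rw [enc_eval] at h0
    have z1 : fP (0 : Frm d) = 0 := by simp [fP, poly]
    have z2 : fQ (0 : Frm d) = 0 := by simp [fQ, poly]
    rcases hab with h | h
    · have := congrArg fQ h0
      rw [fQ_enc _ _ (hdQ t), z2, hQ, neg_eq_zero] at this
      rcases mul_eq_zero.1 this with h3 | h3
      · exact h (by simpa using h3)
      · exact hSne t h3
    · have := congrArg fP h0
      rw [fP_enc _ _ (hdP t), z1, hP] at this
      rcases mul_eq_zero.1 this with h3 | h3
      · exact h (by simpa using h3)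
      · exact hSne t h3
  have hgood : ∀ t ∈ ({0}ᶜ : Set ℂ), ∃ h : (fun i => (enc d PT QT i).eval t) ≠ 0,
      Projectivization.mk ℂ _ h ∈ X' := by
    intro t ht
    have ht : t ≠ 0 := ht
    refine ⟨hne t, ?_⟩
    obtain ⟨L, hL⟩ := exists_pb d ![c, t⁻¹ * p] ![![0, 0], ![t⁻¹ * a, t⁻¹ * b]]
    have k1 : fP (L w) = C t⁻¹ * (C b * Polynomial.aeval (C t⁻¹ * al p a b) φ) := by
      rw [(hL w).1, pb1, sb_line, sb_line]
      simp
      ring
    have k2 : fQ (L w) = C t⁻¹ * (-(C a * Polynomial.aeval (C t⁻¹ * al p a b) φ)) := by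
      rw [(hL w).2, pb2, sb_line, sb_line]
      simp
      ring
    have heq : (fun i => (enc d PT QT i).eval t) = (t ^ (n + 1)) • L w := by
      rw [enc_eval, hP, hQ, hsum t ht]
      apply frm_ext
      · rw [fP_smul, k1, fP_enc]
        · have : (t ^ (n + 1)) * t⁻¹ = t ^ n := by
            rw [pow_succ]; field_simp
          rw [← this]
          simp only [map_mul]
          ring
        · have := hdP t
          rw [hP, hsum t ht] at this
          exact this
      · rw [fQ_smul, k2, fQ_enc]
        · have : (t ^ (n + 1)) * t⁻¹ = t ^ n := by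
            rw [pow_succ]; field_simp
          rw [← this]
          simp only [map_mul]
          ring
        · have := hdQ t
          rw [hQ, hsum t ht] at this
          exact this
    have hLw : L w ≠ 0 := by
      intro h0
      apply hne t
      rw [heq, h0, smul_zero]
    have hmem := comp_affine_all hX _ _ w hw hwX (L w) hLw (hL w).1 (hL w).2
    have : Projectivization.mk ℂ _ (hne t) = Projectivization.mk ℂ (L w) hLw := by
      rw [Projectivization.mk_eq_mk_iff']
      exact ⟨t ^ (n + 1), heq.symm⟩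
    rw [this]; exact hmem
  have hfin := path_closed (comp_closed hX) (enc d PT QT) _
    (Set.finite_singleton (0 : ℂ)).infinite_compl hgood 0 (hne 0)
  have h0 : (fun i => (enc d PT QT i).eval 0) = φ.coeff n • w' := by
    have hS0 : map (Polynomial.evalRingHom 0) S = C (φ.coeff n) * al p a b ^ n := by
      rw [hSe, Finset.sum_eq_single n]
      · simp
      · intro j hj hjn
        have : j < n := by have := Finset.mem_range.1 hj; omega
        rw [zero_pow (by omega : n - j ≠ 0)]
        simp
      · intro h; exact absurd (Finset.mem_range.2 (Nat.lt_succ_self n)) h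
    rw [enc_eval]
    apply frm_ext
    · rw [fP_smul, fP_enc _ _ (hdP 0), hP, hS0, h1]; ring
    · rw [fQ_smul, fQ_enc _ _ (hdQ 0), hQ, hS0, h2]; ring
  have : Projectivization.mk ℂ _ (hne 0) = Projectivization.mk ℂ w' hw' := by
    rw [Projectivization.mk_eq_mk_iff']
    exact ⟨φ.coeff n, h0.symm⟩
  rw [← this]; exact hfin

end Pool.Agent.Y215.CC
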