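import Mathlib
import Pool.Agent.Y215.CC.Top

/-!
# Powers of linear polynomials: the two cases
-/

set_option autoImplicit false

namespace Pool.Agent.Y215.CC

open MvPolynomial
open scoped LinearAlgebra.Projectivization

theorem rs_coeff {d : ℕ} (v : Ex d → ℂ) (c : ℂ) (n : ℕ) :
    (rs c (poly v)).coeff n =
      ∑ e : Ex d, if (e.1.2 : ℕ) = n then v e * c ^ (e.1.1 : ℕ) else 0 := by
  rw [poly, map_sum, Polynomial.finset_sum_coeff]
  refine Finset.sum_congr rfl fun e _ => ?_
  have : rs c (C (v e) * X 0 ^ (e.1.1 : ℕ) * X 1 ^ (e.1.2 : ℕ)) =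
      Polynomial.C (v e * c ^ (e.1.1 : ℕ)) * Polynomial.X ^ (e.1.2 : ℕ) := by
    simp [rs, algebraMap_eq]
  rw [this, Polynomial.coeff_C_mul, Polynomial.coeff_X_pow]
  by_cases h : (e.1.2 : ℕ) = n
  · rw [if_pos h, if_pos h.symm, mul_one]
  · rw [if_neg h, if_neg (Ne.symm h), mul_zero]

/-- the leading part, on the line `x = t y` -/
noncomputable def tA {d : ℕ} (v : Ex d → ℂ) : Polynomial ℂ :=
  ∑ e : Ex d, if (e.1.1 : ℕ) + e.1.2 = d then Polynomial.C (v e) * Polynomial.X ^ (e.1.1 : ℕ) else 0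

/-- the shear `(x + k y, y)` -/
def shm (k : ℂ) : Fin 2 → Fin 2 → ℂ := ![![1, k], ![0, 1]]

theorem sh_coeff {d : ℕ} (v : Ex d → ℂ) (k : ℂ) :
    (rs 0 (sb (fun _ => 0) (shm k) (poly v))).coeff d = (tA v).eval k := by
  have h : ((rs 0).comp (bind₁ (aff (fun _ => 0) (shm k)) :
      MvPolynomial (Fin 2) ℂ →ₐ[ℂ] MvPolynomial (Fin 2) ℂ)) =
      (aeval ![Polynomial.C k * Polynomial.X, Polynomial.X] :
        MvPolynomial (Fin 2) ℂ →ₐ[ℂ] Polynomial ℂ) := by
    apply MvPolynomial.algHom_ext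
    intro i
    fin_cases i
    · simp [rs, aff, shm, algebraMap_eq]
    · simp [rs, aff, shm, algebraMap_eq]
  have h' := DFunLike.congr_fun h (poly v)
  change rs 0 (sb (fun _ => 0) (shm k) (poly v)) = _ at h'
  rw [h', tA, Polynomial.eval_finset_sum, poly, map_sum, Polynomial.finset_sum_coeff]
  refine Finset.sum_congr rfl fun e _ => ?_
  have : (aeval ![Polynomial.C k * Polynomial.X, Polynomial.X] :
        MvPolynomial (Fin 2) ℂ →ₐ[ℂ] Polynomial ℂ)
        (C (v e) * X 0 ^ (e.1.1 : ℕ) * X 1 ^ (e.1.2 : ℕ)) =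
      Polynomial.C (v e * k ^ (e.1.1 : ℕ)) * Polynomial.X ^ ((e.1.1 : ℕ) + e.1.2) := by
    simp [algebraMap_eq, pow_add]
    ring
  rw [this, Polynomial.coeff_C_mul, Polynomial.coeff_X_pow]
  by_cases h : (e.1.1 : ℕ) + e.1.2 = d
  · rw [if_pos h, if_pos h.symm]; simp
  · rw [if_neg h, if_neg (Ne.symm h)]; simp

theorem tA_coeff {d : ℕ} (v : Ex d → ℂ) (e : Ex d) (he : (e.1.1 : ℕ) + e.1.2 = d) :
    (tA v).coeff e.1.1 = v e := by
  rw [tA, Polynomial.finset_sum_coeff, Finset.sum_eq_single e]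
  · rw [if_pos he]; simp
  · intro b _ hb
    by_cases h : (b.1.1 : ℕ) + b.1.2 = d
    · rw [if_pos h, Polynomial.coeff_C_mul, Polynomial.coeff_X_pow, if_neg, mul_zero]
      intro h1
      apply hb
      apply Subtype.ext
      apply Prod.ext
      · exact Fin.ext h1.symm
      · apply Fin.ext; omega
    · rw [if_neg h]; simp
  · intro h; exact absurd (Finset.mem_univ _) h

theorem tA_coeff_big {d : ℕ} (v : Ex d → ℂ) (i : ℕ) (hi : d < i) : (tA v).coeff i = 0 := by
  rw [tA, Polynomial.finset_sum_coeff]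
  refine Finset.sum_eq_zero fun e _ => ?_
  by_cases h : (e.1.1 : ℕ) + e.1.2 = d
  · rw [if_pos h, Polynomial.coeff_C_mul, Polynomial.coeff_X_pow, if_neg, mul_zero]
    omega
  · rw [if_neg h]; simp

/-- in the second case the leading parts are proportional to `(x, y)` -/
theorem tA_rel {d : ℕ} {X' : Set (ℙ ℂ (Frm d))}
    (hX : Maximal (fun Z => IsIrreducible Z ∧ Z ⊆ closure (centers d)) X')
    (H : ∀ (w : Frm d) (hw : w ≠ 0), Projectivization.mk ℂ w hw ∈ X' →
      (rs 0 (fP w)).coeff d = 0)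
    (w : Frm d) (hw : w ≠ 0) (hwX : Projectivization.mk ℂ w hw ∈ X') :
    tA (fun e => w (0, e)) = Polynomial.X * tA (fun e => w (1, e)) := by
  apply Polynomial.funext
  intro k
  obtain ⟨L, hL⟩ := exists_pb d (fun _ => 0) (shm k)
  have hδ : shm k 0 0 * shm k 1 1 - shm k 0 1 * shm k 1 0 ≠ 0 := by simp [shm]
  have hinj := isPb_inj hL hδ
  have hLw : L w ≠ 0 := by
    intro h0
    exact hw (hinj (by rw [h0, map_zero]))
  have hmem := comp_affine_all hX _ _ w hw hwX (L w) hLw (hL w).1 (hL w).2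
  have h := H (L w) hLw hmem
  rw [(hL w).1, pb1, map_sub, map_mul, map_mul] at h
  have hC : ∀ c : ℂ, rs 0 (C c) = Polynomial.C c := by
    intro c; simp [rs, algebraMap_eq]
  rw [hC, hC, Polynomial.coeff_sub, Polynomial.coeff_C_mul, Polynomial.coeff_C_mul, fP, fQ,
    sh_coeff, sh_coeff] at h
  rw [Polynomial.eval_mul, Polynomial.eval_X]
  simp [shm] at h
  linear_combination h

theorem coeff_of_deg {d : ℕ} (v : Ex d → ℂ) (h : tA v = 0) (hd : 1 ≤ d) :
    (poly v).totalDegree < d := by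
  rw [totalDegree, Finset.sup_lt_iff (by exact hd)]
  intro m hm
  rw [deg_mon]
  have h1 : m 0 + m 1 ≤ d := by
    by_contra h2
    exact (mem_support_iff.1 hm) (coeff_poly_zero v m (not_le.1 h2))
  rcases h1.lt_or_eq with h2 | h2
  · exact h2
  · exfalso
    obtain ⟨e, rfl⟩ := eq_mon m h1
    rw [mon_zero, mon_one] at h2
    have := tA_coeff v e h2
    rw [h, Polynomial.coeff_zero] at this
    exact (mem_support_iff.1 hm) (by rw [coeff_poly, ← this])

/-- the restriction to vertical lines has no coefficients of degree `> d` -/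
theorem rs_big {d : ℕ} (v : Ex d → ℂ) (c : ℂ) (n : ℕ) (hn : d < n) :
    (rs c (poly v)).coeff n = 0 := by
  rw [rs_coeff]
  refine Finset.sum_eq_zero fun e _ => ?_
  have := e.2
  rw [if_neg]
  omega

/-- the coefficient of degree `d` does not depend on the line -/
theorem rs_top {d : ℕ} (v : Ex d → ℂ) (c : ℂ) :
    (rs c (poly v)).coeff d = (rs 0 (poly v)).coeff d := by
  rw [rs_coeff, rs_coeff]
  refine Finset.sum_congr rfl fun e _ => ?_
  by_cases h : (e.1.2 : ℕ) = d
  · have h0 : (e.1.1 : ℕ) = 0 := by have := e.2; omega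
    rw [if_pos h, if_pos h, h0]; simp
  · rw [if_neg h, if_neg h]

theorem rs_diff {d : ℕ} (v : Ex d → ℂ) (e₁ : Ex d) (h1 : (e₁.1.1 : ℕ) = 1)
    (h2 : (e₁.1.2 : ℕ) = d - 1) :
    (rs 1 (poly v)).coeff (d - 1) - (rs 0 (poly v)).coeff (d - 1) = v e₁ := by
  rw [rs_coeff, rs_coeff, ← Finset.sum_sub_distrib, Finset.sum_eq_single e₁]
  · rw [if_pos h2, if_pos h2, h1]; simp
  · intro b _ hb
    by_cases h : (b.1.2 : ℕ) = d - 1
    · rw [if_pos h, if_pos h]
      have h0 : (b.1.1 : ℕ) = 0 := by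
        by_contra h0
        apply hb
        have h3 := b.2
        have h4 := e₁.2
        apply Subtype.ext
        apply Prod.ext
        · apply Fin.ext; omega
        · apply Fin.ext; omega
      rw [h0]; simp
    · rw [if_neg h, if_neg h, sub_zero]
  · intro h; exact absurd (Finset.mem_univ _) h

/-- the second case: some member restricts to a polynomial of degree `d - 1` on a line -/
theorem case_b {d : ℕ} (hd : 1 ≤ d) {X' : Set (ℙ ℂ (Frm d))}
    (hX : Maximal (fun Z => IsIrreducible Z ∧ Z ⊆ closure (centers d)) X')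
    (H : ∀ (w : Frm d) (hw : w ≠ 0), Projectivization.mk ℂ w hw ∈ X' →
      (rs 0 (fP w)).coeff d = 0) :
    ∃ (w : Frm d) (hw : w ≠ 0), Projectivization.mk ℂ w hw ∈ X' ∧ ∃ c : ℂ,
      (rs c (fP w)).coeff (d - 1) ≠ 0 ∧ ∀ j, d - 1 < j → (rs c (fP w)).coeff j = 0 := by
  obtain ⟨x, hxX, w0, hw0, rfl, -, hmax, -⟩ := comp_meets hX
  have hrel := tA_rel hX H w0 hw0 hxX
  have hB : tA (fun e => w0 (1, e)) ≠ 0 := by
    intro h0
    rw [h0, mul_zero] at hrel
    have a1 : (fP w0).totalDegree < d := coeff_of_deg _ hrel hd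
    have a2 : (fQ w0).totalDegree < d := coeff_of_deg _ h0 hd
    have := max_lt a1 a2
    omega
  have hk : ∃ k : ℂ, (tA (fun e => w0 (1, e))).eval k ≠ 0 := by
    by_contra hcon
    push Not at hcon
    apply hB
    apply Polynomial.funext
    intro k
    rw [hcon, Polynomial.eval_zero]
  obtain ⟨k, hk⟩ := hk
  obtain ⟨L, hL⟩ := exists_pb d (fun _ => 0) (shm k)
  have hδ : shm k 0 0 * shm k 1 1 - shm k 0 1 * shm k 1 0 ≠ 0 := by simp [shm]
  have hinj := isPb_inj hL hδ
  have hLw : L w0 ≠ 0 := by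
    intro h0
    exact hw0 (hinj (by rw [h0, map_zero]))
  have hmem := comp_affine_all hX _ _ w0 hw0 hxX (L w0) hLw (hL w0).1 (hL w0).2
  set w1 := L w0 with hw1
  have hC : ∀ c : ℂ, rs 0 (C c) = Polynomial.C c := by
    intro c; simp [rs, algebraMap_eq]
  have hq : (rs 0 (fQ w1)).coeff d = (tA (fun e => w0 (1, e))).eval k := by
    rw [(hL w0).2, pb2, map_sub, map_mul, map_mul, hC, hC, Polynomial.coeff_sub,
      Polynomial.coeff_C_mul, Polynomial.coeff_C_mul, fP, fQ, sh_coeff, sh_coeff]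
    simp [shm]
  have hrel1 := tA_rel hX H w1 hLw hmem
  have hq0 : (tA (fun e => w1 (1, e))).coeff 0 ≠ 0 := by
    rw [Polynomial.coeff_zero_eq_eval_zero, ← sh_coeff]
    have : shm 0 = fun i j => if i = j then (1 : ℂ) else 0 := by
      funext i j
      fin_cases i <;> fin_cases j <;> simp [shm]
    rw [this, sb_id]
    change (rs 0 (fQ w1)).coeff d ≠ 0
    rw [hq]; exact hk
  have hp1 : (tA (fun e => w1 (0, e))).coeff 1 ≠ 0 := by
    rw [hrel1, mul_comm, Polynomial.coeff_mul_X]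
    exact hq0
  let e₁ : Ex d := ⟨(⟨1, by omega⟩, ⟨d - 1, by omega⟩), by
    change 1 + (d - 1) ≤ d
    omega⟩
  have hv : w1 (0, e₁) ≠ 0 := by
    have := tA_coeff (fun e => w1 (0, e)) e₁ (by change 1 + (d - 1) = d; omega)
    rw [← this]; exact hp1
  have hdiff := rs_diff (fun e => w1 (0, e)) e₁ rfl rfl
  change (rs 1 (fP w1)).coeff (d - 1) - (rs 0 (fP w1)).coeff (d - 1) = w1 (0, e₁) at hdiff
  have htop : ∀ (c : ℂ) (j : ℕ), d - 1 < j → (rs c (fP w1)).coeff j = 0 := by
    intro c j hj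
    rcases (show d < j ∨ j = d by omega) with h | h
    · exact rs_big _ c j h
    · rw [h, fP, rs_top]
      exact H w1 hLw hmem
  by_cases h0 : (rs 0 (fP w1)).coeff (d - 1) = 0
  · refine ⟨w1, hLw, hmem, 1, ?_, htop 1⟩
    intro h1
    rw [h0, h1, sub_zero] at hdiff
    exact hv hdiff.symm
  · exact ⟨w1, hLw, hmem, 0, h0, htop 0⟩

/-- the class of the differential `d f` belongs to `X` -/
def HasDiff {d : ℕ} (X' : Set (ℙ ℂ (Frm d))) (f : MvPolynomial (Fin 2) ℂ) : Prop :=
  ∃ (w : Frm d) (hw : w ≠ 0), fP w = pderiv 1 f ∧ fQ w = -pderiv 0 f ∧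
    Projectivization.mk ℂ w hw ∈ X'

theorem deg_al (p a b : ℂ) : (al p a b).totalDegree ≤ 1 := by
  have hX1 : ∀ (a : ℂ) (j : Fin 2), (C a * X j : MvPolynomial (Fin 2) ℂ).totalDegree ≤ 1 :=
    fun a j => (isHomogeneous_C_mul_X a j).totalDegree_le
  rw [al]
  refine (totalDegree_add _ _).trans (max_le ((totalDegree_add _ _).trans (max_le ?_ ?_)) ?_)
  · rw [totalDegree_C]; omega
  · exact hX1 _ _
  · exact hX1 _ _

theorem al_of_deg (l : MvPolynomial (Fin 2) ℂ) (hl : l.totalDegree = 1) :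
    ∃ p a b, l = al p a b ∧ (a ≠ 0 ∨ b ≠ 0) := by
  have h := deg_one l (fun m hm => by
    apply coeff_eq_zero_of_totalDegree_lt
    have := deg_mon m
    rw [Finsupp.sum] at this
    omega)
  refine ⟨_, _, _, h, ?_⟩
  by_contra hcon
  push Not at hcon
  rw [hcon.1, hcon.2] at h
  rw [h] at hl
  simp at hl

theorem hasDiff_pow {d : ℕ} {X' : Set (ℙ ℂ (Frm d))} (n : ℕ) (hn : n ≤ d)
    (H : ∀ (p a b : ℂ), (a ≠ 0 ∨ b ≠ 0) → ∀ (w' : Frm d) (hw' : w' ≠ 0),
      fP w' = C b * al p a b ^ n → fQ w' = -(C a * al p a b ^ n) →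
      Projectivization.mk ℂ w' hw' ∈ X') (l : MvPolynomial (Fin 2) ℂ) (hl : l.totalDegree = 1) :
    HasDiff X' (l ^ (n + 1)) := by
  obtain ⟨p, a, b, rfl, hab⟩ := al_of_deg l hl
  have hl0 : al p a b ≠ 0 := by
    intro h0; rw [h0] at hl; simp at hl
  have hdp : (al p a b ^ n).totalDegree ≤ d := by
    refine (totalDegree_pow _ _).trans ?_
    calc n * (al p a b).totalDegree ≤ n * 1 := Nat.mul_le_mul_left _ (deg_al p a b)
      _ ≤ d := by omega
  have d1 : (C b * al p a b ^ n).totalDegree ≤ d := by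
    refine (totalDegree_mul _ _).trans ?_
    rw [totalDegree_C, zero_add]; exact hdp
  have d2 : (-(C a * al p a b ^ n)).totalDegree ≤ d := by
    rw [totalDegree_neg]
    refine (totalDegree_mul _ _).trans ?_
    rw [totalDegree_C, zero_add]; exact hdp
  set u : Frm d := enc d (C b * al p a b ^ n) (-(C a * al p a b ^ n)) with hu
  have u1 : fP u = C b * al p a b ^ n := fP_enc _ _ d1
  have u2 : fQ u = -(C a * al p a b ^ n) := fQ_enc _ _ d2
  have hu0 : u ≠ 0 := by
    intro h0
    have z1 : fP (0 : Frm d) = 0 := by simp [fP, poly]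
    have z2 : fQ (0 : Frm d) = 0 := by simp [fQ, poly]
    rcases hab with h | h
    · rw [h0, z2] at u2
      have := neg_eq_zero.1 u2.symm
      rcases mul_eq_zero.1 this with h3 | h3
      · exact h (by simpa using h3)
      · exact pow_ne_zero _ hl0 h3
    · rw [h0, z1] at u1
      rcases mul_eq_zero.1 u1.symm with h3 | h3
      · exact h (by simpa using h3)
      · exact pow_ne_zero _ hl0 h3
  have hmem := H p a b hab u hu0 u1 u2
  have hn1 : ((n : ℂ) + 1) ≠ 0 := by exact_mod_cast Nat.succ_ne_zero n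
  have hw : ((n : ℂ) + 1) • u ≠ 0 := smul_ne_zero hn1 hu0
  have hp1 : pderiv 1 (al p a b) = C b := by
    simp [al, pderiv_X, Derivation.leibniz]
  have hp0 : pderiv 0 (al p a b) = C a := by
    simp [al, pderiv_X, Derivation.leibniz]
  refine ⟨((n : ℂ) + 1) • u, hw, ?_, ?_, ?_⟩
  · rw [fP_smul, u1, Derivation.leibniz_pow, hp1]
    simp only [Nat.add_sub_cancel, nsmul_eq_mul, smul_eq_mul, Nat.cast_add, Nat.cast_one, map_add,
      map_natCast, map_one]
    ring
  · rw [fQ_smul, u2, Derivation.leibniz_pow, hp0]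
    simp only [Nat.add_sub_cancel, nsmul_eq_mul, smul_eq_mul, Nat.cast_add, Nat.cast_one, map_add,
      map_natCast, map_one]
    ring
  · have : Projectivization.mk ℂ (((n : ℂ) + 1) • u) hw = Projectivization.mk ℂ u hu0 := by
      rw [Projectivization.mk_eq_mk_iff']
      exact ⟨(n : ℂ) + 1, rfl⟩
    rw [this]; exact hmem

/-- the leading homogeneous parts of all members are proportional to `(x, y)` -/
def LeadingRadial {d : ℕ} (X' : Set (ℙ ℂ (Frm d))) : Prop :=
  ∀ (w : Frm d) (hw : w ≠ 0), Projectivization.mk ℂ w hw ∈ X' →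
    X 1 * homogeneousComponent d (fP w) = X 0 * homogeneousComponent d (fQ w)

theorem hom_eval {d : ℕ} (v : Ex d → ℂ) (k s : ℂ) :
    eval ![k * s, s] (homogeneousComponent d (poly v)) = s ^ d * (tA v).eval k := by
  rw [poly, map_sum, map_sum, tA, Polynomial.eval_finset_sum, Finset.mul_sum]
  refine Finset.sum_congr rfl fun e _ => ?_
  have hh : (C (v e) * X 0 ^ (e.1.1 : ℕ) * X 1 ^ (e.1.2 : ℕ) : MvPolynomial (Fin 2) ℂ) ∈
      homogeneousSubmodule (Fin 2) ℂ ((e.1.1 : ℕ) + e.1.2) := by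
    rw [mem_homogeneousSubmodule]
    have h1 := (isHomogeneous_C (Fin 2) (v e)).mul (isHomogeneous_X_pow (R := ℂ) (0 : Fin 2) e.1.1)
    rw [zero_add] at h1
    exact h1.mul (isHomogeneous_X_pow (1 : Fin 2) e.1.2)
  rw [homogeneousComponent_of_mem hh]
  by_cases h : (e.1.1 : ℕ) + e.1.2 = d
  · rw [if_pos h.symm, if_pos h]
    have h2 : s ^ d = s ^ (e.1.1 : ℕ) * s ^ (e.1.2 : ℕ) := by rw [← pow_add, h]
    rw [h2]
    simp
    ring
  · rw [if_neg (Ne.symm h), if_neg h]; simp

/-- the relation of `tA_rel` implies proportionality -/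
theorem radial_of_rel {d : ℕ} (w : Frm d)
    (h : tA (fun e => w (0, e)) = Polynomial.X * tA (fun e => w (1, e))) :
    X 1 * homogeneousComponent d (fP w) = X 0 * homogeneousComponent d (fQ w) := by
  have key : X 1 * (X 1 * homogeneousComponent d (fP w)) =
      X 1 * (X 0 * homogeneousComponent d (fQ w)) := by
    apply MvPolynomial.funext
    intro z
    by_cases hz : z 1 = 0
    · simp [hz]
    · have hz' : z = ![(z 0 / z 1) * z 1, z 1] := by
        funext i
        fin_cases i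
        · simp [div_mul_cancel₀ _ hz]
        · simp
      have e1 : eval z (homogeneousComponent d (fP w)) =
          z 1 ^ d * (tA (fun e => w (0, e))).eval (z 0 / z 1) := by
        conv_lhs => rw [hz']
        exact hom_eval _ _ _
      have e2 : eval z (homogeneousComponent d (fQ w)) =
          z 1 ^ d * (tA (fun e => w (1, e))).eval (z 0 / z 1) := by
        conv_lhs => rw [hz']
        exact hom_eval _ _ _
      rw [map_mul, map_mul, map_mul, map_mul, e1, e2, h, Polynomial.eval_mul, Polynomial.eval_X,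
        eval_X, eval_X]
      field_simp
  exact mul_left_cancel₀ (X_ne_zero 1) key

/-- conversely -/
theorem rel_of_radial {d : ℕ} (w : Frm d)
    (h : X 1 * homogeneousComponent d (fP w) = X 0 * homogeneousComponent d (fQ w)) :
    tA (fun e => w (0, e)) = Polynomial.X * tA (fun e => w (1, e)) := by
  apply Polynomial.funext
  intro k
  have h1 := congrArg (eval ![k * 1, 1]) h
  rw [map_mul, map_mul, fP, fQ, hom_eval, hom_eval] at h1
  simpa using h1

theorem case_a {d : ℕ} {X' : Set (ℙ ℂ (Frm d))}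
    (hX : Maximal (fun Z => IsIrreducible Z ∧ Z ⊆ closure (centers d)) X')
    (h : ¬ LeadingRadial X') (l : MvPolynomial (Fin 2) ℂ) (hl : l.totalDegree = 1) :
    HasDiff X' (l ^ (d + 1)) := by
  have hex : ∃ (w : Frm d) (hw : w ≠ 0), Projectivization.mk ℂ w hw ∈ X' ∧
      (rs 0 (fP w)).coeff d ≠ 0 := by
    by_contra hcon
    push Not at hcon
    exact h fun w hw hwX => radial_of_rel w (tA_rel hX hcon w hw hwX)
  obtain ⟨w, hw, hwX, hc⟩ := hex
  refine hasDiff_pow d le_rfl ?_ l hl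
  intro p a b hab w' hw' h1 h2
  exact line_limit hX w hw hwX 0 d le_rfl hc (fun j hj => rs_big _ 0 j hj) p a b hab w' hw' h1 h2

theorem radial_zero {d : ℕ} (w : Frm d)
    (h : X 1 * homogeneousComponent d (fP w) = X 0 * homogeneousComponent d (fQ w)) :
    (rs 0 (fP w)).coeff d = 0 := by
  have h1 := rel_of_radial w h
  have h2 := congrArg (Polynomial.eval 0) h1
  rw [Polynomial.eval_mul, Polynomial.eval_X, zero_mul, ← sh_coeff] at h2
  have : shm 0 = fun i j => if i = j then (1 : ℂ) else 0 := by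
    funext i j
    fin_cases i <;> fin_cases j <;> simp [shm]
  rw [this, sb_id] at h2
  exact h2

theorem case_b' {d : ℕ} (hd : 1 ≤ d) {X' : Set (ℙ ℂ (Frm d))}
    (hX : Maximal (fun Z => IsIrreducible Z ∧ Z ⊆ closure (centers d)) X')
    (h : LeadingRadial X') (l : MvPolynomial (Fin 2) ℂ) (hl : l.totalDegree = 1) :
    HasDiff X' (l ^ d) := by
  obtain ⟨w, hw, hwX, c, hc, hj⟩ := case_b hd hX
    (fun w hw hwX => radial_zero w (h w hw hwX))
  have := hasDiff_pow (X' := X') (d - 1) (by omega) ?_ l hl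
  · rwa [Nat.sub_add_cancel hd] at this
  · intro p a b hab w' hw' h1 h2
    exact line_limit hX w hw hwX c (d - 1) (by omega) hc hj p a b hab w' hw' h1 h2

/-- in the second case no differential of a polynomial of degree `d + 1` is in the component -/
theorem deg_le {d : ℕ} {X' : Set (ℙ ℂ (Frm d))} (h : LeadingRadial X')
    (f : MvPolynomial (Fin 2) ℂ) (hf : HasDiff X' f) : f.totalDegree ≤ d := by
  obtain ⟨w, hw, h1, h2, hmem⟩ := hf
  have hrel := rel_of_radial w (h w hw hmem)
  rw [totalDegree]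
  refine Finset.sup_le fun m hm => ?_
  rw [deg_mon]
  by_contra hlt
  rw [not_le] at hlt
  apply mem_support_iff.1 hm
  -- the coefficients of the derivatives
  have c1 : ∀ n : Fin 2 →₀ ℕ, coeff (n + Finsupp.single 1 1) f * ((n 1 : ℂ) + 1) =
      coeff n (fP w) := by
    intro n; rw [h1, coeff_pderiv]
  have c0 : ∀ n : Fin 2 →₀ ℕ, coeff (n + Finsupp.single 0 1) f * ((n 0 : ℂ) + 1) =
      -coeff n (fQ w) := by
    intro n; rw [h2, coeff_neg, neg_neg, coeff_pderiv]
  have hsub : ∀ i : Fin 2, m i ≠ 0 → (m - Finsupp.single i 1) + Finsupp.single i 1 = m := by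
    intro i hi
    apply tsub_add_cancel_of_le
    rw [Finsupp.single_le_iff]
    omega
  have k1 : m 1 ≠ 0 → coeff m f * (m 1 : ℂ) = coeff (m - Finsupp.single 1 1) (fP w) := by
    intro hi
    have := c1 (m - Finsupp.single 1 1)
    rw [hsub 1 hi] at this
    rw [← this]
    congr 1
    have h3 : m 1 = (m - Finsupp.single 1 1 : Fin 2 →₀ ℕ) 1 + 1 := by
      simp; omega
    exact_mod_cast h3
  have k0 : m 0 ≠ 0 → coeff m f * (m 0 : ℂ) = -coeff (m - Finsupp.single 0 1) (fQ w) := by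
    intro hi
    have := c0 (m - Finsupp.single 0 1)
    rw [hsub 0 hi] at this
    rw [← this]
    congr 1
    have h3 : m 0 = (m - Finsupp.single 0 1 : Fin 2 →₀ ℕ) 0 + 1 := by
      simp; omega
    exact_mod_cast h3
  have big1 : m 1 ≠ 0 → d + 1 < m 0 + m 1 → coeff (m - Finsupp.single 1 1) (fP w) = 0 := by
    intro hi hb
    apply coeff_poly_zero
    simp; omega
  have big0 : m 0 ≠ 0 → d + 1 < m 0 + m 1 → coeff (m - Finsupp.single 0 1) (fQ w) = 0 := by
    intro hi hb
    apply coeff_poly_zero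
    simp; omega
  rcases (show d + 1 < m 0 + m 1 ∨ m 0 + m 1 = d + 1 by omega) with hb | hb
  · rcases (show m 0 ≠ 0 ∨ m 1 ≠ 0 by omega) with hi | hi
    · have := k0 hi
      rw [big0 hi hb, neg_zero] at this
      exact (mul_eq_zero.1 this).resolve_right (by exact_mod_cast hi)
    · have := k1 hi
      rw [big1 hi hb] at this
      exact (mul_eq_zero.1 this).resolve_right (by exact_mod_cast hi)
  · -- total degree exactly `d + 1`
    have t1 : m 1 ≠ 0 → coeff (m - Finsupp.single 1 1) (fP w) =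
        (tA (fun e => w (0, e))).coeff (m 0) := by
      intro hi
      obtain ⟨e, he⟩ := eq_mon (d := d) (m - Finsupp.single 1 1) (by simp; omega)
      have e0 : (e.1.1 : ℕ) = m 0 := by rw [← mon_zero, he]; simp
      have e1 : (e.1.2 : ℕ) = m 1 - 1 := by rw [← mon_one, he]; simp
      rw [← he, fP, coeff_poly, ← e0, tA_coeff _ e (by omega)]
    have t0 : m 0 ≠ 0 → coeff (m - Finsupp.single 0 1) (fQ w) =
        (tA (fun e => w (1, e))).coeff (m 0 - 1) := by
      intro hi
      obtain ⟨e, he⟩ := eq_mon (d := d) (m - Finsupp.single 0 1) (by simp; omega)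
      have e0 : (e.1.1 : ℕ) = m 0 - 1 := by rw [← mon_zero, he]; simp
      have e1 : (e.1.2 : ℕ) = m 1 := by rw [← mon_one, he]; simp
      rw [← he, fQ, coeff_poly, ← e0, tA_coeff _ e (by omega)]
    have r1 : m 0 ≠ 0 → (tA (fun e => w (0, e))).coeff (m 0) =
        (tA (fun e => w (1, e))).coeff (m 0 - 1) := by
      intro hi
      obtain ⟨n, hn⟩ := Nat.exists_eq_succ_of_ne_zero hi
      rw [hrel, hn, Nat.succ_eq_add_one, mul_comm, Polynomial.coeff_mul_X, Nat.add_sub_cancel]
    by_cases hi : m 0 = 0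
    · have hi1 : m 1 ≠ 0 := by omega
      have a1 := k1 hi1
      rw [t1 hi1, hi, hrel, Polynomial.mul_coeff_zero, Polynomial.coeff_X_zero, zero_mul] at a1
      exact (mul_eq_zero.1 a1).resolve_right (by exact_mod_cast hi1)
    · by_cases hi1 : m 1 = 0
      · have a0 := k0 hi
        rw [t0 hi, ← r1 hi, tA_coeff_big _ _ (by omega), neg_zero] at a0
        exact (mul_eq_zero.1 a0).resolve_right (by exact_mod_cast hi)
      · have a1 := k1 hi1
        have a0 := k0 hi
        rw [t1 hi1, r1 hi] at a1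
        rw [t0 hi] at a0
        have a2 : coeff m f * ((m 0 : ℂ) + m 1) = 0 := by linear_combination a0 + a1
        refine (mul_eq_zero.1 a2).resolve_right ?_
        have : m 0 + m 1 ≠ 0 := by omega
        exact_mod_cast this

end Pool.Agent.Y215.CC
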